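import Pool.Agent.K7.H3.ZR.Curves
import Mathlib.Order.Filter.FilterProduct

/-!
# Generic points with values in ultrapowers
-/

set_option autoImplicit false

open MvPolynomial FF
open scoped LinearAlgebra.Projectivization

namespace Pool.Agent.K7.H3.ZR

open Pool.Agent.K7.H3.ZN
open Pool.Agent.K7.H3.ZC (IsVariety aff ES Spz tt coe_tt tt_empty tt_submod rank_point
  exists_chart tt_univ exists_put cyM cyM_map cyM_add cyM_zero exists_diff exists_fin_map
  exists_finset_map cycle aeval_rep_eq_zero ratEquiv IsFiniteDimensional sum_cyM deg_eq_one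
  exists_hom_ne_zero exists_not_mem_curve rk MultiHomogeneous exists_hom exists_spz'
  smul_of_ratio mem_adjoin_ES mk_eq_of_smul exists_point rk_le_of_spz)

variable {k : Type} [Field k] {K : Type} [Field K] [Algebra k K] {ι : Type} {r : ℕ}

theorem multiHomogeneous_mul {R : Type} [CommRing R] {G H : MvPolynomial (ι × Fin (r + 1)) R}
    {d d' : ι → ℕ} (hG : MultiHomogeneous G d) (hH : MultiHomogeneous H d') :
    MultiHomogeneous (G * H) (d + d') := by
  classical
  intro m hm i
  obtain ⟨a, ha, b, hb, rfl⟩ := Finset.mem_add.1 (support_mul G H hm)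
  change ∑ j, (a (i, j) + b (i, j)) = d i + d' i
  rw [Finset.sum_add_distrib, hG a ha i, hH b hb i]

/-- Restriction of specialisations. -/
theorem Spz_comp {L : Type} [Field L] [Algebra k L] {κ : Type} {ξ : ι → Fin (r + 1) → K}
    {a : ι → Fin (r + 1) → L} (h : Spz k ξ a) {f : κ → ι} (hf : Function.Injective f) :
    Spz k (fun i => ξ (f i)) (fun i => a (f i)) := by
  classical
  intro G d hG h0
  have hinj : Function.Injective (Prod.map f (id : Fin (r + 1) → Fin (r + 1))) :=
    hf.prodMap Function.injective_id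
  have h1 : MultiHomogeneous (rename (Prod.map f id) G) (Function.extend f d 0) := by
    intro m hm i
    rw [support_rename_of_injective hinj] at hm
    obtain ⟨m', hm', rfl⟩ := Finset.mem_image.1 hm
    by_cases hi : ∃ a, f a = i
    · obtain ⟨a, rfl⟩ := hi
      rw [hf.extend_apply, ← hG m' hm' a]
      refine Finset.sum_congr rfl fun j _ => ?_
      exact Finsupp.mapDomain_apply hinj m' (a, j)
    · rw [Function.extend_apply' _ _ _ hi]
      change _ = 0
      refine Finset.sum_eq_zero fun j _ => ?_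
      apply Finsupp.mapDomain_of_notMem_range
      rintro ⟨p, hp⟩
      exact hi ⟨p.1, (Prod.ext_iff.1 hp).1⟩
  have h2 := h _ _ h1 (by
    rw [aeval_rename]
    exact h0)
  rw [aeval_rename] at h2
  exact h2

/-- Extension of specialisations. -/
theorem extend_spz [IsAlgClosed k] [Fintype ι] [DecidableEq ι] {κ : Type} [Fintype κ]
    {ξ : ι → Fin (r + 1) → K} (hξ : ∀ i, ξ i ≠ 0) (f : κ → ι) {w : κ → Fin (r + 1) → k}
    (hw : ∀ a, w a ≠ 0) (h : Spz k (fun a => ξ (f a)) w) :
    ∃ v : ι → Fin (r + 1) → k, (∀ i, v i ≠ 0) ∧ Spz k ξ v ∧ ∀ a, ∃ c : k, v (f a) = c • w a := by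
  classical
  obtain ⟨cw, hcw⟩ := exists_chart hw
  have hξc : ∀ a, ξ (f a) (cw a) ≠ 0 := fun a => h.ne_zero (hcw a)
  obtain ⟨φ, hφ⟩ := exists_hom (k := k) (K := K) (L := k) (R := k) (σ := κ × Fin (r + 1))
    (Algebra.ofId k K) (AlgHom.id k k) (η := aff cw (fun a => ξ (f a))) (α := aff cw w)
    (fun G hG => h.aff hcw G hG)
    (Algebra.adjoin k (ES cw (fun a => ξ (f a)) Finset.univ)) (by
      intro x hx
      induction hx using Algebra.adjoin_induction with
      | mem x hx =>
        obtain ⟨i, -, j, rfl⟩ := hx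
        exact ⟨MvPolynomial.X (i, j), by rw [eval₂_X]; rfl⟩
      | algebraMap c => exact ⟨C c, by rw [eval₂_C]; rfl⟩
      | add x y _ _ hx hy =>
        obtain ⟨G, hG⟩ := hx
        obtain ⟨G', hG'⟩ := hy
        exact ⟨G + G', by rw [eval₂_add, hG, hG']⟩
      | mul x y _ _ hx hy =>
        obtain ⟨G, hG⟩ := hx
        obtain ⟨G', hG'⟩ := hy
        exact ⟨G * G', by rw [eval₂_mul, hG, hG']⟩)
  obtain ⟨v, hv, hv1, hv2⟩ := exists_spz' φ hξ
  refine ⟨v, hv, hv1, fun a => ⟨_, smul_of_ratio hv2 (hξc a) (a := w a) fun j => ?_⟩⟩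
  refine ⟨⟨ξ (f a) j / ξ (f a) (cw a),
    mem_adjoin_ES (b := cw) (ξ := fun a => ξ (f a)) (Finset.mem_univ a) j⟩, rfl, ?_⟩
  rw [hφ _ (MvPolynomial.X (a, j)) (by rw [eval₂_X]; rfl), eval₂_X]
  rfl

section germ

variable {Λ : Type} (U : Ultrafilter Λ)

/-- The ultrapower. -/
abbrev UP (k : Type) (U : Ultrafilter Λ) : Type := Filter.Germ (U : Filter Λ) k

/-- The ultrapower is an algebra. -/
noncomputable def upMap (k : Type) [Field k] (U : Ultrafilter Λ) : (Λ → k) →+* UP k U :=
  Filter.Germ.coeRingHom (U : Filter Λ)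

noncomputable instance upAlg (k : Type) [Field k] (U : Ultrafilter Λ) : Algebra k (UP k U) :=
  ((upMap k U).comp (algebraMap k (Λ → k))).toAlgebra

/-- As a homomorphism of algebras. -/
noncomputable def upHom (k : Type) [Field k] (U : Ultrafilter Λ) : (Λ → k) →ₐ[k] UP k U :=
  { upMap k U with commutes' := fun _ => rfl }

theorem upHom_eq_zero {f : Λ → k} : upHom k U f = 0 ↔ ∀ᶠ a in (U : Filter Λ), f a = 0 := by
  change ((f : Filter.Germ (U : Filter Λ) k)) = ((0 : Λ → k) : Filter.Germ (U : Filter Λ) k) ↔ _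
  rw [Filter.Germ.coe_eq]
  rfl

theorem aeval_upHom {σ : Type} (f : σ → Λ → k) (G : MvPolynomial σ k) :
    aeval (fun s => upHom k U (f s)) G = upHom k U (fun a => aeval (fun s => f s a) G) := by
  have h1 : aeval (fun s => upHom k U (f s)) G = upHom k U (aeval f G) := by
    rw [← comp_aeval]
    rfl
  rw [h1]
  congr 1
  funext a
  have h2 : (Pi.evalAlgHom k (fun _ : Λ => k) a).comp (aeval f) =
      aeval fun s => f s a := by
    rw [comp_aeval]
    rfl
  exact congrArg (fun φ : MvPolynomial σ k →ₐ[k] k => φ G) h2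

end germ

end Pool.Agent.K7.H3.ZR
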