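import Pool.Agent.K7.H3.ZR.Reduce

/-!
# Cycles which are equivalent to sums of few points
-/

set_option autoImplicit false

open MvPolynomial FF
open scoped LinearAlgebra.Projectivization

namespace Pool.Agent.K7.H3.ZR

open Pool.Agent.K7.H3.ZN
open Pool.Agent.K7.H3.ZC (IsVariety aff ES Spz tt coe_tt tt_empty tt_submod rank_point
  exists_chart tt_univ exists_put cyM cyM_map cyM_add cyM_zero exists_diff exists_fin_map
  exists_finset_map cycle aeval_rep_eq_zero)

variable {k : Type} [Field k] {r : ℕ} {X : Set (ℙ k (Fin (r + 1) → k))} {K0 : Type} [Field K0]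
  [Algebra k K0] {θ : Fin 1 → Fin (r + 1) → K0} {n : ℕ} {h : MvPolynomial (Fin (r + 1)) k} {e : ℕ}

/-- A signed sum of points is a difference of two effective cycles. -/
theorem signed_eq {A ι : Type} {c : ι → ℤ} (hc : ∀ i, c i = 1 ∨ c i = -1)
    (J : Finset ι) (y : ι → A) :
    ∑ i ∈ J, Finsupp.single (y i) (c i) = cyM ((J.filter fun i => c i = 1).val.map y) -
      cyM ((J.filter fun i => ¬ c i = 1).val.map y) := by
  classical
  rw [cyM_map, cyM_map, ← Finset.sum_filter_add_sum_filter_not J (fun i => c i = 1), sub_eq_add_neg]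
  congr 1
  · exact Finset.sum_congr rfl fun i hi => by rw [(Finset.mem_filter.1 hi).2]
  · rw [← Finset.sum_neg_distrib]
    refine Finset.sum_congr rfl fun i hi => ?_
    rw [(hc i).resolve_left (Finset.mem_filter.1 hi).2, Finsupp.single_neg]

/-- **The main theorem**, in terms of generic points. -/
theorem rank_core [IsAlgClosed k] (hn : 2 ≤ n) (hX : VarData k X K0 θ n) (he : 0 < e)
    (hh : h.IsHomogeneous e) (hC : ∃ x ∈ X, aeval x.rep h ≠ 0)
    {R : AddSubgroup (ℙ k (Fin (r + 1) → k) →₀ ℤ)} {ι : Type} [Fintype ι] [DecidableEq ι]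
    {K : Type} [Field K] [Algebra k K] {ξ : ι → Fin (r + 1) → K} {b : ι → Fin (r + 1)}
    (hb : ∀ i, ξ i (b i) ≠ 0) (hspz : ∀ i, Spz k θ (fun _ => ξ i)) {c : ι → ℤ}
    (hc : ∀ i, c i = 1 ∨ c i = -1) {m : ℕ} {d : Fin m → ℤ} (hd : ∀ j, d j = 1 ∨ d j = -1)
    (hm : (n - 1) * Fintype.card ι + m < tt k b ξ Finset.univ)
    (hfew : ∀ (v : ι → Fin (r + 1) → k) (hv : ∀ i, v i ≠ 0), Spz k ξ v →
      ∃ y : Fin m → ℙ k (Fin (r + 1) → k), (∀ j, y j ∈ X) ∧
        ∑ i, Finsupp.single (Projectivization.mk k (v i) (hv i)) (c i) -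
          ∑ j, Finsupp.single (y j) (d j) ∈ R) :
    GenMul R X {x | x ∈ X ∧ aeval x.rep h = 0} 1 (Fintype.card ι) := by
  classical
  obtain ⟨x0, hx0, -⟩ := id hC
  obtain ⟨L, S, u, hLS, hScard, hpt⟩ := exists_family_point hn hX he hh hb hspz
  have hpq : (S.filter fun i => c i = 1).card + (S.filter fun i => ¬ c i = 1).card = S.card :=
    Finset.card_filter_add_card_filter_not (s := S) (fun i => c i = 1)
  have hmm : (Finset.univ.filter fun j => d j = 1).card +
      (Finset.univ.filter fun j => ¬ d j = 1).card = m := by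
    rw [Finset.card_filter_add_card_filter_not, Finset.card_univ, Fintype.card_fin]
  have hSle : S.card ≤ Fintype.card ι := Finset.card_le_univ S
  have key := reduce_pairs (A := ℙ k (Fin (r + 1) → k)) (X := X)
    (H := {x | x ∈ X ∧ aeval x.rep h = 0}) (R := R)
    (p := (S.filter fun i => c i = 1).card) (q := (S.filter fun i => ¬ c i = 1).card)
    (m1 := (Finset.univ.filter fun j => d j = 1).card)
    (m2 := (Finset.univ.filter fun j => ¬ d j = 1).card)
    (z1 := ((L ∪ S)ᶜ.filter fun i => c i = 1).card)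
    (z2 := ((L ∪ S)ᶜ.filter fun i => ¬ c i = 1).card)
    (U := ∑ i ∈ L, Finsupp.single (u i) (c i)) (by omega) (by
      intro P Q hP hQ hPc hQc
      have : Nonempty (ℙ k (Fin (r + 1) → k)) := ⟨x0⟩
      obtain ⟨a1, rfl⟩ := exists_finset_map _ P hPc
      obtain ⟨a2, rfl⟩ := exists_finset_map _ Q hQc
      obtain ⟨v, hv, hvspz, hvL, hvS, hvC⟩ := hpt (fun i => if c i = 1 then a1 i else a2 i) (by
        intro i hi
        by_cases hi' : c i = 1
        · rw [if_pos hi']
          exact hP _ (Multiset.mem_map_of_mem a1 (Finset.mem_filter.2 ⟨hi, hi'⟩))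
        · rw [if_neg hi']
          exact hQ _ (Multiset.mem_map_of_mem a2 (Finset.mem_filter.2 ⟨hi, hi'⟩)))
      obtain ⟨y, hy, hR⟩ := hfew v hv hvspz
      have hvX : ∀ i, Projectivization.mk k (v i) (hv i) ∈ X := hX.mem_of_spz hspz hv hvspz
      refine ⟨(Finset.univ.filter fun j => d j = 1).val.map y,
        (Finset.univ.filter fun j => ¬ d j = 1).val.map y,
        ((L ∪ S)ᶜ.filter fun i => c i = 1).val.map fun i => Projectivization.mk k (v i) (hv i),
        ((L ∪ S)ᶜ.filter fun i => ¬ c i = 1).val.map fun i => Projectivization.mk k (v i) (hv i),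
        ?_, ?_, ?_, ?_, ?_, ?_, ?_, ?_, ?_⟩
      · intro x hx
        obtain ⟨j, -, rfl⟩ := Multiset.mem_map.1 hx
        exact hy j
      · intro x hx
        obtain ⟨j, -, rfl⟩ := Multiset.mem_map.1 hx
        exact hy j
      · intro x hx
        obtain ⟨i, hi, rfl⟩ := Multiset.mem_map.1 hx
        have hi' : i ∉ L ∪ S := Finset.mem_compl.1 (Finset.mem_filter.1 hi).1
        rw [Finset.mem_union, not_or] at hi'
        exact ⟨hvX i, (aeval_rep_eq_zero hh (hv i)).2 (hvC i hi'.1 hi'.2)⟩
      · intro x hx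
        obtain ⟨i, hi, rfl⟩ := Multiset.mem_map.1 hx
        have hi' : i ∉ L ∪ S := Finset.mem_compl.1 (Finset.mem_filter.1 hi).1
        rw [Finset.mem_union, not_or] at hi'
        exact ⟨hvX i, (aeval_rep_eq_zero hh (hv i)).2 (hvC i hi'.1 hi'.2)⟩
      · rw [Multiset.card_map]
        rfl
      · rw [Multiset.card_map]
        rfl
      · rw [Multiset.card_map]
        rfl
      · rw [Multiset.card_map]
        rfl
      · rw [signed_eq hd, ← Finset.sum_add_sum_compl (L ∪ S), Finset.sum_union hLS,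
          signed_eq hc S, signed_eq hc (L ∪ S)ᶜ] at hR
        have e1 : ∑ i ∈ L, Finsupp.single (Projectivization.mk k (v i) (hv i)) (c i) =
            ∑ i ∈ L, Finsupp.single (u i) (c i) :=
          Finset.sum_congr rfl fun i hi => by rw [hvL i hi]
        have e2 : (S.filter fun i => c i = 1).val.map
            (fun i => Projectivization.mk k (v i) (hv i)) =
            (S.filter fun i => c i = 1).val.map a1 := by
          refine Multiset.map_congr rfl fun i hi => ?_
          have hi' := Finset.mem_filter.1 hi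
          rw [hvS i hi'.1, if_pos hi'.2]
        have e3 : (S.filter fun i => ¬ c i = 1).val.map
            (fun i => Projectivization.mk k (v i) (hv i)) =
            (S.filter fun i => ¬ c i = 1).val.map a2 := by
          refine Multiset.map_congr rfl fun i hi => ?_
          have hi' := Finset.mem_filter.1 hi
          rw [hvS i hi'.1, if_neg hi'.2]
        rw [e1, e2, e3] at hR
        convert hR using 1
        abel)
  refine genMul_of_pairs hx0 fun N P Q hP hQ hPc hQc => ?_
  obtain ⟨P', Q', Z, Z', h1, h2, h3, h4, h5, h6, h7, h8⟩ := key N P Q hP hQ hPc hQc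
  exact ⟨P', Q', Z, Z', h1, h2, h3, h4, h5, by omega, h7, h8⟩

end Pool.Agent.K7.H3.ZR
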