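import Pool.Agent.K7.H3.ZR.Core

/-!
# Zero-cycles on finite unions of curves
-/

set_option autoImplicit false

open MvPolynomial FF
open scoped LinearAlgebra.Projectivization

namespace Pool.Agent.K7.H3.ZR

open Pool.Agent.K7.H3.ZN
open Pool.Agent.K7.H3.ZC (IsVariety aff ES Spz tt coe_tt tt_empty tt_submod rank_point
  exists_chart tt_univ exists_put cyM cyM_map cyM_add cyM_zero exists_diff exists_fin_map
  exists_finset_map cycle aeval_rep_eq_zero ratEquiv IsFiniteDimensional sum_cyM deg_eq_one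
  exists_hom_ne_zero exists_not_mem_curve rk)

variable {k : Type} [Field k] {r : ℕ} {X : Set (ℙ k (Fin (r + 1) → k))}

/-- The degree. -/
noncomputable def dg {A : Type} : (A →₀ ℤ) →+ ℤ :=
  Finsupp.liftAddHom fun _ : A => AddMonoidHom.id ℤ

theorem dg_apply {A : Type} (Z : A →₀ ℤ) : dg Z = Z.sum fun _ a => a := rfl

theorem dg_single {A : Type} (p : A) (a : ℤ) : dg (Finsupp.single p a) = a := by
  rw [dg_apply, Finsupp.sum_single_index rfl]

theorem dg_cyM {A : Type} (S : Multiset A) : dg (cyM S) = S.card := sum_cyM S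

theorem dg_cycle {n : ℕ} (x : Fin n → ℙ k (Fin (r + 1) → k)) : dg (cycle x) = n := by
  rw [cycle, map_sum, Finset.sum_congr rfl fun i _ => dg_single (x i) 1]
  simp

theorem dg_mapDomain {A B : Type} (c : A → B) (Z : A →₀ ℤ) :
    dg (Finsupp.mapDomain c Z) = dg Z := by
  rw [dg_apply, dg_apply, Finsupp.sum_mapDomain_index (fun _ => rfl) fun _ _ _ => rfl]

/-- The degree of a cycle which is equivalent to zero. -/
theorem dg_ratEquiv [IsAlgClosed k] [CharZero k] {Z : ℙ k (Fin (r + 1) → k) →₀ ℤ}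
    (hZ : Z ∈ ratEquiv X) : dg Z = 0 := by
  have h1 : ratEquiv X ≤ (dg (A := ℙ k (Fin (r + 1) → k))).ker := by
    rw [ratEquiv, AddSubgroup.closure_le]
    rintro Z ⟨L, _, _, _, x, h, c, hh, -, rfl⟩
    change dg _ = 0
    rw [dg_mapDomain, dg_apply]
    have h2 := ddeg_divisor (k := k) (K := L) h
    rw [ddeg] at h2
    rw [← h2]
    refine Finsupp.sum_congr fun P _ => ?_
    rw [deg_eq_one, Nat.cast_one, mul_one]
  exact h1 hZ

/-- The cycles which are supported in `D`. -/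
noncomputable def supp {A : Type} (D : Set A) : AddSubgroup (A →₀ ℤ) :=
  (Finsupp.supported ℤ ℤ D).toAddSubgroup

theorem mem_supp {A : Type} {D : Set A} {Z : A →₀ ℤ} : Z ∈ supp D ↔ ∀ p ∈ Z.support, p ∈ D := by
  change Z ∈ Finsupp.supported ℤ ℤ D ↔ _
  rw [Finsupp.mem_supported]
  exact Iff.rfl

theorem cyM_mem_supp {A : Type} {D : Set A} {S : Multiset A} (hS : ∀ p ∈ S, p ∈ D) :
    cyM S ∈ supp D := by
  classical
  induction S using Multiset.induction_on with
  | empty =>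
    rw [cyM_zero]
    exact zero_mem _
  | cons a S ih =>
    rw [Pool.Agent.K7.H3.ZC.cyM_cons]
    refine add_mem ?_ (ih fun p hp => hS p (Multiset.mem_cons_of_mem hp))
    rw [mem_supp]
    intro p hp
    have h1 := Finset.mem_singleton.1 (Finsupp.support_single_subset hp)
    rw [h1]
    exact hS a (Multiset.mem_cons_self a S)

theorem single_mem_supp {A : Type} {D : Set A} {a : A} (ha : a ∈ D) (m : ℤ) :
    Finsupp.single a m ∈ supp D := by
  rw [mem_supp]
  intro p hp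
  rw [Finset.mem_singleton.1 (Finsupp.support_single_subset hp)]
  exact ha

/-- Cycles of degree zero in `supp D` are bounded modulo rational equivalence. -/
def Bdd [CharZero k] (X D : Set (ℙ k (Fin (r + 1) → k))) : Prop :=
  ∃ g : ℕ, ∀ Z ∈ supp D, dg Z = 0 → ∃ P Q : Multiset (ℙ k (Fin (r + 1) → k)),
    (∀ p ∈ P, p ∈ X) ∧ (∀ p ∈ Q, p ∈ X) ∧ P.card = g ∧ Q.card = g ∧
      Z - (cyM P - cyM Q) ∈ ratEquiv X

theorem bdd_curve [IsAlgClosed k] [CharZero k] {C : Set (ℙ k (Fin (r + 1) → k))}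
    (hC : IsVariety k {z : Fin 1 → ℙ k (Fin (r + 1) → k) | z 0 ∈ C} 1) (hCX : C ⊆ X) :
    Bdd X C := by
  obtain ⟨g, hg⟩ := exists_genus (X := X) hC hCX
  refine ⟨g, fun Z hZ h0 => ?_⟩
  obtain ⟨P, Q, hP, hQ, hPc, hQc, h1⟩ := hg Z (mem_supp.1 hZ) h0
  exact ⟨P, Q, fun p hp => hCX (hP p hp), fun p hp => hCX (hQ p hp), hPc, hQc, h1⟩

theorem bdd_union [CharZero k] {C D : Set (ℙ k (Fin (r + 1) → k))} (hC : Bdd X C) (hD : Bdd X D)
    {p : ℙ k (Fin (r + 1) → k)} (hpC : p ∈ C) (hpD : p ∈ D) : Bdd X (C ∪ D) := by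
  classical
  obtain ⟨g, hg⟩ := hC
  obtain ⟨g', hg'⟩ := hD
  refine ⟨g + g', fun Z hZ h0 => ?_⟩
  have hsplit := Finsupp.filter_add_filter_not Z (fun x => x ∈ C)
  have hZC : Z.filter (fun x => x ∈ C) ∈ supp C := by
    rw [mem_supp]
    intro x hx
    rw [Finsupp.support_filter] at hx
    exact (Finset.mem_filter.1 hx).2
  have hZD : Z.filter (fun x => ¬ x ∈ C) ∈ supp D := by
    rw [mem_supp]
    intro x hx
    rw [Finsupp.support_filter] at hx
    have hx' := Finset.mem_filter.1 hx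
    exact ((mem_supp.1 hZ) x hx'.1).resolve_left hx'.2
  set Z1 := Z.filter (fun x => x ∈ C)
  set Z2 := Z.filter (fun x => ¬ x ∈ C)
  have hdeg : dg Z1 + dg Z2 = 0 := by
    rw [← map_add, hsplit]
    exact h0
  obtain ⟨P, Q, hP, hQ, hPc, hQc, h1⟩ := hg (Z1 - Finsupp.single p (dg Z1))
    (sub_mem hZC (single_mem_supp hpC _)) (by rw [map_sub, dg_single, sub_self])
  obtain ⟨P', Q', hP', hQ', hPc', hQc', h1'⟩ := hg' (Z2 + Finsupp.single p (dg Z1))
    (add_mem hZD (single_mem_supp hpD _)) (by rw [map_add, dg_single, add_comm]; exact hdeg)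
  refine ⟨P + P', Q + Q', ?_, ?_, by rw [Multiset.card_add, hPc, hPc'],
    by rw [Multiset.card_add, hQc, hQc'], ?_⟩
  · intro x hx
    rcases Multiset.mem_add.1 hx with hx | hx
    · exact hP x hx
    · exact hP' x hx
  · intro x hx
    rcases Multiset.mem_add.1 hx with hx | hx
    · exact hQ x hx
    · exact hQ' x hx
  · have h2 := add_mem h1 h1'
    convert h2 using 1
    rw [cyM_add, cyM_add]
    nth_rewrite 1 [← hsplit]
    abel

theorem Bdd.mono [CharZero k] {C D : Set (ℙ k (Fin (r + 1) → k))} (hC : Bdd X C) (hD : D ⊆ C) :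
    Bdd X D := by
  obtain ⟨g, hg⟩ := hC
  exact ⟨g, fun Z hZ h0 => hg Z (mem_supp.2 fun p hp => hD (mem_supp.1 hZ p hp)) h0⟩

/-- A curve meets each hypersurface. -/
theorem exists_meet [IsAlgClosed k] {D : Set (ℙ k (Fin (r + 1) → k))}
    (hD : IsVariety k {z : Fin 1 → ℙ k (Fin (r + 1) → k) | z 0 ∈ D} 1)
    {h : MvPolynomial (Fin (r + 1)) k} {e : ℕ} (he : 0 < e) (hh : h.IsHomogeneous e) :
    ∃ p ∈ D, aeval p.rep h = 0 := by
  classical
  obtain ⟨K, _, _, ξ, hξ, hgen, htr, hDξ⟩ := hD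
  obtain ⟨b, hb⟩ := exists_chart hξ
  have htt := tt_univ hgen htr hb
  obtain ⟨φ, -⟩ := exists_hom_ne_zero (k := k) (K := K) (S := ∅) Set.finite_empty
    (c := 1) one_ne_zero
  obtain ⟨v, hv, hv1, -, hv3⟩ := exists_put hb Set.finite_empty φ he hh (A := Finset.univ) (by
    intro B _
    rw [Set.empty_union]
    have h2 : rk k (∅ : Set K) = 0 := Matroid.eRk_empty _
    rw [h2, add_zero, ← coe_tt]
    rcases B.eq_empty_or_nonempty with rfl | ⟨i, hi⟩
    · simp
    · have h3 : B = Finset.univ := by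
        rw [Finset.eq_univ_iff_forall]
        intro j
        rwa [Subsingleton.elim j i]
      rw [h3, htt]
      simp)
  refine ⟨Projectivization.mk k (v 0) (hv 0), ?_, (aeval_rep_eq_zero hh (hv 0)).2
    (hv3 0 (Finset.mem_univ 0))⟩
  have h1 := (hDξ (fun i => Projectivization.mk k (v i) (hv i))).2 (hv1.rep hv)
  exact h1

/-- **From generation modulo curves to finite-dimensionality.** -/
theorem finite_of_genMul [IsAlgClosed k] [CharZero k]
    {h : MvPolynomial (Fin (r + 1)) k} {e : ℕ} (he : 0 < e) (hh : h.IsHomogeneous e)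
    (hC : IsVariety k {z : Fin 1 → ℙ k (Fin (r + 1) → k) | z 0 ∈ X ∧ aeval (z 0).rep h = 0} 1)
    {s : ℕ} {D : Fin s → Set (ℙ k (Fin (r + 1) → k))}
    (hD : ∀ a, IsVariety k {z : Fin 1 → ℙ k (Fin (r + 1) → k) | z 0 ∈ D a} 1)
    (hDX : ∀ a, D a ⊆ X) {M : ℕ}
    (hgen : GenMul (ratEquiv X ⊔ supp {p | ∃ a, p ∈ D a}) X {x | x ∈ X ∧ aeval x.rep h = 0} 1 M) :
    IsFiniteDimensional X := by
  classical
  -- the union of the curves
  have hbdd : ∀ A : Finset (Fin s),
      Bdd X ({x | x ∈ X ∧ aeval x.rep h = 0} ∪ {p | ∃ a ∈ A, p ∈ D a}) := by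
    intro A
    induction A using Finset.induction_on with
    | empty =>
      refine (bdd_curve (C := {x | x ∈ X ∧ aeval x.rep h = 0}) hC fun x hx => hx.1).mono ?_
      rintro p (hp | ⟨a, ha, -⟩)
      · exact hp
      · exact absurd ha (Finset.notMem_empty a)
    | insert a A _ ih =>
      obtain ⟨p, hpD, hp⟩ := exists_meet (hD a) he hh
      refine (bdd_union ih (bdd_curve (hD a) (hDX a)) (p := p)
        (Or.inl ⟨hDX a hpD, hp⟩) hpD).mono ?_
      rintro x (hx | ⟨a', ha', hx⟩)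
      · exact Or.inl (Or.inl hx)
      · rcases Finset.mem_insert.1 ha' with rfl | ha'
        · exact Or.inr hx
        · exact Or.inl (Or.inr ⟨a', ha', hx⟩)
  obtain ⟨g, hg⟩ := hbdd Finset.univ
  refine ⟨M + g, fun Z hZ h0 => ?_⟩
  obtain ⟨x, y, Z', hx, hy, hZ', h0', hR⟩ := hgen Z hZ h0
  obtain ⟨ρ, hρ, E, hE, hsum⟩ := AddSubgroup.mem_sup.1 hR
  have hρ0 := dg_ratEquiv hρ
  have hE0 : dg E = 0 := by
    have h1 := congrArg dg hsum
    rw [map_add, hρ0, zero_add, map_sub, map_sub, map_sub, dg_cycle, dg_cycle, one_smul,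
      show dg Z = 0 from h0, show dg Z' = 0 from h0'] at h1
    rw [h1]
    ring
  obtain ⟨P, Q, hP, hQ, hPc, hQc, hPQ⟩ := hg (Z' + E) (add_mem
    (mem_supp.2 fun p hp => Or.inl (hZ' p hp)) (mem_supp.2 fun p hp => by
      obtain ⟨a, ha⟩ := mem_supp.1 hE p hp
      exact Or.inr ⟨a, Finset.mem_univ a, ha⟩)) (by
    rw [map_add, hE0, show dg Z' = 0 from h0', add_zero])
  have hpad : ∀ (x : Fin M → ℙ k (Fin (r + 1) → k)) (P : Multiset (ℙ k (Fin (r + 1) → k))),
      (∀ i, x i ∈ X) → (∀ p ∈ P, p ∈ X) → P.card = g →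
      ∃ x' : Fin (M + g) → ℙ k (Fin (r + 1) → k), (∀ i, x' i ∈ X) ∧
        cycle x' = cycle x + cyM P := by
    intro x P hx hP hPc
    have hx1 : cycle x = cyM ((Finset.univ : Finset (Fin M)).val.map x) := by
      rw [cyM_map]
      rfl
    obtain ⟨x', hx'⟩ := exists_fin_map (n := M + g)
      ((Finset.univ : Finset (Fin M)).val.map x + P) (by
        rw [Multiset.card_add, Multiset.card_map, hPc]
        change Finset.card _ + g = _
        rw [Finset.card_univ, Fintype.card_fin])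
    refine ⟨x', fun i => ?_, ?_⟩
    · have h1 : x' i ∈ (Finset.univ : Finset (Fin M)).val.map x + P := by
        rw [hx']
        exact Multiset.mem_map_of_mem x' (Finset.mem_univ i)
      rcases Multiset.mem_add.1 h1 with h1 | h1
      · obtain ⟨j, -, h2⟩ := Multiset.mem_map.1 h1
        rw [← h2]
        exact hx j
      · exact hP _ h1
    · have h2 : cycle x' = cyM ((Finset.univ : Finset (Fin M)).val.map x + P) := by
        rw [hx', cyM_map]
        rfl
      rw [h2, cyM_add, ← hx1]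
  obtain ⟨x', hxX', hx'⟩ := hpad x P hx hP hPc
  obtain ⟨y', hyX', hy'⟩ := hpad y Q hy hQ hQc
  refine ⟨x', y', hxX', hyX', ?_⟩
  have h1 := add_mem hρ hPQ
  have h2 : ρ = (1 : ℤ) • Z - (cycle x - cycle y) - Z' - E := by
    rw [← hsum]
    abel
  rw [h2, one_smul] at h1
  convert h1 using 1
  rw [hx', hy']
  abel

/-- **Cycles which are equivalent to signed sums of few points.** -/
theorem surface_rank [IsAlgClosed k] [CharZero k]
    (hX : IsVariety k {z : Fin 1 → ℙ k (Fin (r + 1) → k) | z 0 ∈ X} 2)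
    {h : MvPolynomial (Fin (r + 1)) k} {e : ℕ} (he : 0 < e) (hh : h.IsHomogeneous e)
    (hC : IsVariety k {z : Fin 1 → ℙ k (Fin (r + 1) → k) | z 0 ∈ X ∧ aeval (z 0).rep h = 0} 1)
    {s : ℕ} {D : Fin s → Set (ℙ k (Fin (r + 1) → k))}
    (hD : ∀ a, IsVariety k {z : Fin 1 → ℙ k (Fin (r + 1) → k) | z 0 ∈ D a} 1)
    (hDX : ∀ a, D a ⊆ X) {n m q : ℕ} {Z : Set (Fin n → ℙ k (Fin (r + 1) → k))}
    (hZ : IsVariety k Z q) (hZX : ∀ z ∈ Z, ∀ i, z i ∈ X) {c : Fin n → ℤ}
    (hc : ∀ i, c i = 1 ∨ c i = -1) {d : Fin m → ℤ} (hd : ∀ j, d j = 1 ∨ d j = -1)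
    (hm : n + m < q)
    (hfew : ∀ z ∈ Z, ∃ (y : Fin m → ℙ k (Fin (r + 1) → k)) (E : ℙ k (Fin (r + 1) → k) →₀ ℤ),
      (∀ j, y j ∈ X) ∧ (∀ p ∈ E.support, ∃ a, p ∈ D a) ∧
        ∑ i, Finsupp.single (z i) (c i) - ∑ j, Finsupp.single (y j) (d j) - E ∈ ratEquiv X) :
    IsFiniteDimensional X := by
  classical
  obtain ⟨K0, _, _, θ, hXθ⟩ := varData hX
  obtain ⟨K, _, _, ξ, hξ, hgen, htr, hZξ⟩ := hZ
  obtain ⟨b, hb⟩ := exists_chart hξ
  have hmem : ∀ (v : Fin n → Fin (r + 1) → k) (hv : ∀ i, v i ≠ 0), Spz k ξ v →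
      (fun i => Projectivization.mk k (v i) (hv i)) ∈ Z := fun v hv hv1 =>
    (hZξ _).2 (hv1.rep hv)
  refine finite_of_genMul he hh hC hD hDX (rank_core (n := 2) le_rfl hXθ he hh
    (exists_not_mem_curve hX hC) hb
    (hXθ.spz_of_forall hξ fun v hv hv1 i => hZX _ (hmem v hv hv1) i) hc hd ?_ ?_)
  · rw [tt_univ hgen htr hb, Fintype.card_fin]
    omega
  · intro v hv hv1
    obtain ⟨y, E, hy, hE, hR⟩ := hfew _ (hmem v hv hv1)
    refine ⟨y, hy, AddSubgroup.mem_sup.2 ⟨_, hR, E, mem_supp.2 hE, ?_⟩⟩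
    abel

end Pool.Agent.K7.H3.ZR
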