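import Pool.Agent.K7.H3.ZR.Ultra

/-!
# Families with free coordinates, and their generic points
-/

set_option autoImplicit false

open MvPolynomial FF
open scoped LinearAlgebra.Projectivization

namespace Pool.Agent.K7.H3.ZR

open Pool.Agent.K7.H3.ZN
open Pool.Agent.K7.H3.ZC (aff ES Spz tt coe_tt tt_empty tt_submod rank_point exists_hom_ne_zero
  exists_spz' exists_chart exists_hom chart_tt_eq mem_adjoin_ES ES_finite ES_union exists_put
  mk_eq_of_smul smul_of_ratio reduce_fix cyM cyM_map cyM_add cyM_zero exists_diff exists_fin_map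
  exists_finset_map cycle aeval_rep_eq_zero MultiHomogeneous exists_point rk_le_of_spz rk)

variable {k : Type} [Field k] {r : ℕ} {X : Set (ℙ k (Fin (r + 1) → k))} {K0 : Type} [Field K0]
  [Algebra k K0] {θ : Fin 1 → Fin (r + 1) → K0} {n : ℕ} {h : MvPolynomial (Fin (r + 1)) k} {e : ℕ}

/-- Points of a family with fixed coordinates in `L`, free coordinates in `S`, and all other
coordinates on the curve. -/
theorem exists_family_point' [IsAlgClosed k] (hn : 2 ≤ n) (hX : VarData k X K0 θ n)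
    (he : 0 < e) (hh : h.IsHomogeneous e)
    {ι : Type} [Fintype ι] [DecidableEq ι]
    {K : Type} [Field K] [Algebra k K] {ξ : ι → Fin (r + 1) → K} {b : ι → Fin (r + 1)}
    (hb : ∀ i, ξ i (b i) ≠ 0) (hspz : ∀ i, Spz k θ (fun _ => ξ i)) :
    ∃ (L S : Finset ι) (u : ι → ℙ k (Fin (r + 1) → k)), Disjoint L S ∧
      tt k b ξ Finset.univ ≤ (n - 1) * Fintype.card ι + S.card ∧ n * S.card ≤ tt k b ξ S ∧
      ∀ a : ι → ℙ k (Fin (r + 1) → k), (∀ i ∈ S, a i ∈ X) →
        ∃ (v : ι → Fin (r + 1) → k) (hv : ∀ i, v i ≠ 0), Spz k ξ v ∧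
          (∀ i ∈ L, Projectivization.mk k (v i) (hv i) = u i) ∧
          (∀ i ∈ S, Projectivization.mk k (v i) (hv i) = a i) ∧
          ∀ i, i ∉ L → i ∉ S → aeval (v i) h = 0 := by
  classical
  have hξ : ∀ i, ξ i ≠ 0 := fun i h0 => hb i (congrFun h0 (b i))
  have hle : ∀ i, tt k b ξ {i} ≤ n := fun i => (rank_point hX.gen hX.tr (hspz i) (hb i)).1
  obtain ⟨L, S, hLS, hS, hB⟩ := exists_fix_free (t := tt k b ξ) hn (tt_submod (k := k) b ξ)
    (tt_empty b ξ) hle
  have hcardLS : (L ∪ S).card = L.card + S.card := Finset.card_union_of_disjoint hLS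
  have hnS : n * S.card = (n - 1) * S.card + S.card := by
    rw [← Nat.succ_mul]
    congr 1
    omega
  -- the fixed point
  obtain ⟨φ0, -⟩ := exists_hom_ne_zero (k := k) (K := K) (S := ∅) Set.finite_empty
    (c := 1) one_ne_zero
  obtain ⟨w, hw, hwspz, -⟩ := exists_spz' φ0 hξ
  obtain ⟨cw, hcw⟩ := exists_chart hw
  have hgenS : ∀ i ∈ S, Spz k (fun _ : Fin 1 => ξ i) θ := by
    intro i hi
    apply (rank_point hX.gen hX.tr (hspz i) (hb i)).2
    have h1 := tt_submod (k := k) b ξ {i} (L ∪ S.erase i)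
    have h2 : {i} ∪ (L ∪ S.erase i) = L ∪ S := by
      ext x
      simp only [Finset.mem_union, Finset.mem_singleton, Finset.mem_erase]
      constructor
      · rintro (rfl | hx | hx)
        · exact Or.inr hi
        · exact Or.inl hx
        · exact Or.inr hx.2
      · rintro (hx | hx)
        · exact Or.inr (Or.inl hx)
        · by_cases hxi : x = i
          · exact Or.inl hxi
          · exact Or.inr (Or.inr ⟨hxi, hx⟩)
    rw [h2] at h1
    have h3 := tt_union_le hle L (S.erase i)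
    have h4 : 0 < S.card := Finset.card_pos.2 ⟨i, hi⟩
    have h6 : n * (S.erase i).card + n = n * S.card := by
      rw [Finset.card_erase_of_mem hi, ← Nat.mul_succ]
      congr 1
      omega
    have h5 := hB (L ∪ S) subset_rfl
    omega
  have hSn : n * S.card ≤ tt k b ξ S := by
    have h1 := tt_submod (k := k) b ξ L S
    have h2 := hB (L ∪ S) subset_rfl
    omega
  refine ⟨L, S, fun i => Projectivization.mk k (w i) (hw i), hLS, hS, hSn, fun a ha => ?_⟩
  -- the charts
  have hch : ∀ i, ∃ l, (i ∈ L → l = cw i) ∧ (i ∈ S → (a i).rep l ≠ 0) ∧ ξ i l ≠ 0 := by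
    intro i
    by_cases hiL : i ∈ L
    · refine ⟨cw i, fun _ => rfl, fun hiS => absurd hiS (Finset.disjoint_left.1 hLS hiL), ?_⟩
      exact hwspz.ne_zero (hcw i)
    · by_cases hiS : i ∈ S
      · obtain ⟨l, hl⟩ := Function.ne_iff.1 (a i).rep_nonzero
        refine ⟨l, fun h => absurd h hiL, fun _ => hl, ?_⟩
        have h1 : Spz k (fun _ : Fin 1 => ξ i) (fun _ => (a i).rep) :=
          (hgenS i hiS).trans ((hX.mem (a i)).1 (ha i hiS))
        exact h1.ne_zero (i := 0) hl
      · exact ⟨b i, fun h => absurd h hiL, fun h => absurd h hiS, hb i⟩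
  choose c hcL hcS hcξ using hch
  have htt : ∀ B, tt k b ξ B = tt k c ξ B := fun B => chart_tt_eq hb hcξ B
  -- the homomorphism given by the fixed point
  obtain ⟨φ, hφ⟩ := exists_hom (k := k) (K := K) (L := k) (R := k) (σ := ι × Fin (r + 1))
    (Algebra.ofId k K) (AlgHom.id k k) (η := aff cw ξ) (α := aff cw w) (fun G hG =>
      hwspz.aff hcw G hG) (Algebra.adjoin k (ES c ξ L)) (by
      intro x hx
      induction hx using Algebra.adjoin_induction with
      | mem x hx =>
        obtain ⟨i, hi, j, rfl⟩ := hx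
        exact ⟨MvPolynomial.X (i, j), by rw [eval₂_X, hcL i hi]; rfl⟩
      | algebraMap c => exact ⟨C c, by rw [eval₂_C]; rfl⟩
      | add x y _ _ hx hy =>
        obtain ⟨G, hG⟩ := hx
        obtain ⟨G', hG'⟩ := hy
        exact ⟨G + G', by rw [eval₂_add, hG, hG']⟩
      | mul x y _ _ hx hy =>
        obtain ⟨G, hG⟩ := hx
        obtain ⟨G', hG'⟩ := hy
        exact ⟨G * G', by rw [eval₂_mul, hG, hG']⟩)
  have hφj : ∀ i (hi : i ∈ L) j, φ ⟨ξ i j / ξ i (c i), mem_adjoin_ES hi j⟩ =
      w i j / w i (c i) := by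
    intro i hi j
    rw [hφ _ (MvPolynomial.X (i, j)) (by rw [eval₂_X]; change _ = ξ i j / ξ i (c i); rw [hcL i hi]; rfl),
      eval₂_X, hcL i hi]
    rfl
  -- the homomorphism with the given coordinates in `S`
  obtain ⟨ψ, hψ0, hψ⟩ := indep_points_rel c ξ (fun i j => (a i).rep j / (a i).rep (c i)) L φ (n := n) S
    (by
      rw [← htt, ← htt]
      have := hB (L ∪ S) subset_rfl
      omega) (fun i _ => by rw [← htt]; exact hle i) (by
      intro i hi g hg
      have h1 : Spz k (fun _ : Fin 1 => ξ i) (fun _ => (a i).rep) :=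
        (hgenS i hi).trans ((hX.mem (a i)).1 (ha i hi))
      have h2 := h1.aff (b := fun _ => c i) (fun _ => hcS i hi)
        (rename (fun j => ((0 : Fin 1), j)) g) (by
          rw [aeval_rename]
          exact hg)
      rw [aeval_rename] at h2
      exact h2)
  obtain ⟨v, hv, hv1, hv2, hv3⟩ := exists_put hcξ (ES_finite c ξ (L ∪ S)) ψ he hh
    (A := (L ∪ S)ᶜ) (by
      intro B hBA
      rw [← ES_union, ← coe_tt, ← coe_tt, ← htt, ← htt]
      have h1 := hB (L ∪ S ∪ B) Finset.subset_union_left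
      have h2 : (L ∪ S ∪ B).card = L.card + S.card + B.card := by
        rw [Finset.card_union_of_disjoint, hcardLS]
        rw [Finset.disjoint_left]
        intro x hx hxB
        exact (Finset.mem_compl.1 (hBA hxB)) hx
      have h3 := tt_union_le hle L S
      have h4 : B.card + tt k b ξ (L ∪ S) ≤ tt k b ξ (L ∪ S ∪ B) := by omega
      exact_mod_cast h4)
  refine ⟨v, hv, hv1, fun i hi => ?_, fun i hi => ?_, fun i hiL hiS => ?_⟩
  · refine mk_eq_of_smul _ _ (smul_of_ratio hv2 (l := c i) (hcξ i) (a := w i) fun j => ?_)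
    refine ⟨⟨ξ i j / ξ i (c i), mem_adjoin_ES (Finset.mem_union_left S hi) j⟩, rfl, ?_⟩
    rw [hψ0 _ ⟨ξ i j / ξ i (c i), mem_adjoin_ES hi j⟩ rfl]
    exact hφj i hi j
  · rw [← (a i).mk_rep]
    refine mk_eq_of_smul _ _ (smul_of_ratio hv2 (l := c i) (hcξ i) (a := (a i).rep) fun j => ?_)
    exact ⟨⟨ξ i j / ξ i (c i), mem_adjoin_ES (Finset.mem_union_right L hi) j⟩, rfl,
      hψ _ i hi j rfl⟩
  · refine hv3 i (Finset.mem_compl.2 fun h' => ?_)
    rcases Finset.mem_union.1 h' with h' | h'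
    · exact hiL h'
    · exact hiS h'


end Pool.Agent.K7.H3.ZR
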