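import Pool.Agent.K7.H3.ZR.Curves

/-!
# Families of orbits and fibres, modulo curves
-/

set_option autoImplicit false

open MvPolynomial FF
open scoped LinearAlgebra.Projectivization

namespace Pool.Agent.K7.H3.ZR

open Pool.Agent.K7.H3.ZN
open Pool.Agent.K7.H3.ZC (IsVariety cycle ratEquiv IsFiniteDimensional exists_not_mem_curve)

variable {k : Type} [Field k] {r : ℕ} {X : Set (ℙ k (Fin (r + 1) → k))}
  {h : MvPolynomial (Fin (r + 1)) k} {e : ℕ}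

theorem genMul_neg {R : AddSubgroup (ℙ k (Fin (r + 1) → k) →₀ ℤ)}
    {H : Set (ℙ k (Fin (r + 1) → k))} {M : ℕ} (hgen : GenMul R X H (-1) M) :
    GenMul R X H 1 M := by
  intro Z hZ h0
  obtain ⟨x, y, Z', hx, hy, hZ', h0', hR⟩ := hgen Z hZ h0
  refine ⟨y, x, -Z', hy, hx, ?_, ?_, ?_⟩
  · intro p hp
    rw [Finsupp.support_neg] at hp
    exact hZ' p hp
  · have h1 : dg (-Z') = - dg Z' := map_neg dg Z'
    rw [← dg_apply, h1, dg_apply, h0', neg_zero]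
  · have h1 := neg_mem hR
    convert h1 using 1
    rw [neg_smul, one_smul]
    abel

/-- Families of orbits modulo curves. -/
theorem surface_families [IsAlgClosed k] [CharZero k]
    (hX : IsVariety k {z : Fin 1 → ℙ k (Fin (r + 1) → k) | z 0 ∈ X} 2) (he : 0 < e)
    (hh : h.IsHomogeneous e)
    (hC : IsVariety k {z : Fin 1 → ℙ k (Fin (r + 1) → k) | z 0 ∈ X ∧ aeval (z 0).rep h = 0} 1)
    {s : ℕ} {D : Fin s → Set (ℙ k (Fin (r + 1) → k))}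
    (hD : ∀ a, IsVariety k {z : Fin 1 → ℙ k (Fin (r + 1) → k) | z 0 ∈ D a} 1)
    (hDX : ∀ a, D a ⊆ X) {n d f : ℕ} {Z : Set (Fin n → ℙ k (Fin (r + 1) → k))}
    (hZ : IsVariety k Z d) (hZX : ∀ z ∈ Z, ∀ i, z i ∈ X) (hf : 2 * n < d + f)
    (horb : ∀ z ∈ Z, ∃ (W : Set (Fin n → ℙ k (Fin (r + 1) → k))) (m : ℕ), IsVariety k W m ∧
      f ≤ m ∧ (∀ w ∈ W, ∀ i, w i ∈ X) ∧ ∀ w ∈ W, ∃ E : ℙ k (Fin (r + 1) → k) →₀ ℤ,
        (∀ p ∈ E.support, ∃ a, p ∈ D a) ∧ cycle z - cycle w - E ∈ ratEquiv X) :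
    IsFiniteDimensional X := by
  refine finite_of_genMul he hh hC hD hDX (ZN.main_families (n := 2) le_rfl hX he hh
    (exists_not_mem_curve hX hC) hZ hZX (f := f) (by omega) fun z hz => ?_)
  obtain ⟨W, m, hW, hfm, hWX, hWR⟩ := horb z hz
  refine ⟨W, m, hW, hfm, hWX, fun w hw => ?_⟩
  obtain ⟨E, hE, hR⟩ := hWR w hw
  refine AddSubgroup.mem_sup.2 ⟨_, hR, E, mem_supp.2 hE, ?_⟩
  abel

/-- Fibres of signed sums modulo curves. -/
theorem surface_signs [IsAlgClosed k] [CharZero k]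
    (hX : IsVariety k {z : Fin 1 → ℙ k (Fin (r + 1) → k) | z 0 ∈ X} 2) (he : 0 < e)
    (hh : h.IsHomogeneous e)
    (hC : IsVariety k {z : Fin 1 → ℙ k (Fin (r + 1) → k) | z 0 ∈ X ∧ aeval (z 0).rep h = 0} 1)
    {s : ℕ} {D : Fin s → Set (ℙ k (Fin (r + 1) → k))}
    (hD : ∀ a, IsVariety k {z : Fin 1 → ℙ k (Fin (r + 1) → k) | z 0 ∈ D a} 1)
    (hDX : ∀ a, D a ⊆ X) {N m : ℕ} {W : Set (Fin N → ℙ k (Fin (r + 1) → k))}
    (hW : IsVariety k W m) (hWX : ∀ w ∈ W, ∀ i, w i ∈ X) {c : Fin N → ℤ}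
    (hc : ∀ i, c i = 1 ∨ c i = -1)
    (hconst : ∀ w ∈ W, ∀ w' ∈ W, ∃ E : ℙ k (Fin (r + 1) → k) →₀ ℤ,
      (∀ p ∈ E.support, ∃ a, p ∈ D a) ∧
        ∑ i, Finsupp.single (w i) (c i) - ∑ i, Finsupp.single (w' i) (c i) - E ∈ ratEquiv X)
    (havoid : ∀ w ∈ W, ∀ A : Finset (Fin N), A.card = m → ∃ i ∈ A, aeval (w i).rep h ≠ 0) :
    IsFiniteDimensional X := by
  obtain ⟨i, hi⟩ := main_weights (n := 2) (R := ratEquiv X ⊔ supp {p | ∃ a, p ∈ D a}) le_rfl hX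
    he hh (exists_not_mem_curve hX hC) hW hWX (c := c) (fun w hw w' hw' => by
      obtain ⟨E, hE, hR⟩ := hconst w hw w' hw'
      refine AddSubgroup.mem_sup.2 ⟨_, hR, E, mem_supp.2 hE, ?_⟩
      abel) (a := m) (by omega) havoid
  rcases hc i with h1 | h1
  · rw [h1] at hi
    exact finite_of_genMul he hh hC hD hDX hi
  · rw [h1] at hi
    exact finite_of_genMul he hh hC hD hDX (genMul_neg hi)

end Pool.Agent.K7.H3.ZR
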