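import Pool.Agent.K7.H3.ZR.Family

/-!
# Generic members of families with free coordinates
-/

set_option autoImplicit false

open MvPolynomial FF
open scoped LinearAlgebra.Projectivization

namespace Pool.Agent.K7.H3.ZR

open Pool.Agent.K7.H3.ZN
open Pool.Agent.K7.H3.ZC (aff ES Spz tt coe_tt tt_empty tt_submod rank_point exists_hom_ne_zero
  exists_spz' exists_chart exists_hom chart_tt_eq mem_adjoin_ES ES_finite ES_union exists_put
  mk_eq_of_smul smul_of_ratio reduce_fix cyM cyM_map cyM_add cyM_zero exists_diff exists_fin_map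
  exists_finset_map cycle aeval_rep_eq_zero MultiHomogeneous exists_point rk_le_of_spz rk
  multiHomogeneous_rename)

variable {k : Type} [Field k] {r : ℕ}

/-- The specialisations over `k`. -/
def Pts (k : Type) [Field k] {K : Type} [Field K] [Algebra k K] {S : Type} {r : ℕ}
    (η : S → Fin (r + 1) → K) : Type :=
  {v : S → Fin (r + 1) → k // (∀ i, v i ≠ 0) ∧ Spz k η v}

/-- An ultrafilter on the points over `k` which is given by the generic point. -/
theorem exists_ultra [IsAlgClosed k] {K : Type} [Field K] [Algebra k K] {S : Type} [Fintype S]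
    {η : S → Fin (r + 1) → K} (hη : ∀ i, η i ≠ 0) :
    ∃ U : Ultrafilter (Pts k η), ∀ (G : MvPolynomial (S × Fin (r + 1)) k) (d : S → ℕ),
      MultiHomogeneous G d → aeval (fun p => η p.1 p.2) G ≠ 0 →
        ∀ᶠ a in (U : Filter (Pts k η)), aeval (fun p : S × Fin (r + 1) => a.1 p.1 p.2) G ≠ 0 := by
  classical
  let good : Set (Set (Pts k η)) := {A | ∃ (G : MvPolynomial (S × Fin (r + 1)) k) (d : S → ℕ),
    MultiHomogeneous G d ∧ aeval (fun p => η p.1 p.2) G ≠ 0 ∧
      A = {a | aeval (fun p : S × Fin (r + 1) => a.1 p.1 p.2) G ≠ 0}}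
  have hfin : ∀ T : Finset (Set (Pts k η)), (T : Set (Set (Pts k η))) ⊆ good →
      ∃ (G : MvPolynomial (S × Fin (r + 1)) k) (d : S → ℕ),
        MultiHomogeneous G d ∧ aeval (fun p => η p.1 p.2) G ≠ 0 ∧
        {a : Pts k η | aeval (fun p : S × Fin (r + 1) => a.1 p.1 p.2) G ≠ 0} ⊆
          ⋂₀ (T : Set (Set (Pts k η))) := by
    intro T
    induction T using Finset.induction_on with
    | empty =>
      intro _
      refine ⟨1, 0, ?_, by rw [map_one]; exact one_ne_zero, by simp⟩
      intro m hm i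
      have h1 : (1 : MvPolynomial (S × Fin (r + 1)) k) = C 1 := rfl
      rw [h1, C_apply] at hm
      rw [Finset.mem_singleton.1 (support_monomial_subset hm)]
      simp
    | insert A T _ ih =>
      intro hT
      rw [Finset.coe_insert, Set.insert_subset_iff] at hT
      obtain ⟨G, d, hG, hG0, hGT⟩ := ih hT.2
      obtain ⟨G', d', hG', hG0', rfl⟩ := hT.1
      refine ⟨G' * G, d' + d, multiHomogeneous_mul hG' hG, by rw [map_mul]; exact mul_ne_zero hG0' hG0,
        ?_⟩
      intro a ha
      change aeval (fun p : S × Fin (r + 1) => a.1 p.1 p.2) (G' * G) ≠ 0 at ha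
      rw [map_mul] at ha
      rw [Finset.coe_insert, Set.sInter_insert]
      exact ⟨left_ne_zero_of_mul ha, hGT (right_ne_zero_of_mul ha)⟩
  obtain ⟨U, hU⟩ := Ultrafilter.exists_ultrafilter_of_finite_inter_nonempty good (by
    intro T hT
    obtain ⟨G, d, hG, hG0, hGT⟩ := hfin T hT
    obtain ⟨v, hv, hv1, hv2⟩ := exists_point hη hG hG0
    exact ⟨⟨v, hv, hv1⟩, hGT hv2⟩)
  exact ⟨U, fun G d hG hG0 => hU ⟨G, d, hG, hG0, rfl⟩⟩

variable {X : Set (ℙ k (Fin (r + 1) → k))} {K0 : Type} [Field K0]
  [Algebra k K0] {θ : Fin 1 → Fin (r + 1) → K0} {n : ℕ} {h : MvPolynomial (Fin (r + 1)) k} {e : ℕ}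

/-- The ranks of a point with values in the ultrapower. -/
theorem rank_ultra {K : Type} [Field K] [Algebra k K] {S : Type} [Fintype S]
    {η : S → Fin (r + 1) → K} {b : S → Fin (r + 1)} (hb : ∀ i, η i (b i) ≠ 0)
    {K' : Type} [Field K'] [Algebra k K'] {ρ : S → Fin (r + 1) → K'} {b' : S → Fin (r + 1)}
    (hb' : ∀ i, ρ i (b' i) ≠ 0)
    (H : ∀ (G : MvPolynomial (S × Fin (r + 1)) k) (d : S → ℕ),
      MultiHomogeneous G d → aeval (fun p => ρ p.1 p.2) G = 0 →
        aeval (fun p => η p.1 p.2) G = 0) :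
    tt k b η Finset.univ ≤ tt k b' ρ Finset.univ := by
  classical
  have hs : Spz k ρ η := H
  have hρb : ∀ i, ρ i (b i) ≠ 0 := fun i => hs.ne_zero (hb i)
  have h1 := rk_le_of_spz (fun G => hs.aff hb G)
  have h5 : ∀ {K : Type} [Field K] [Algebra k K] (ξ : S → Fin (r + 1) → K),
      Set.range (aff b ξ) = ES b ξ Finset.univ := by
    intro K _ _ ξ
    ext x
    constructor
    · rintro ⟨p, rfl⟩
      exact ⟨p.1, Finset.mem_univ _, p.2, rfl⟩
    · rintro ⟨i', -, j, rfl⟩
      exact ⟨(i', j), rfl⟩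
  rw [h5, h5, ← coe_tt, ← coe_tt] at h1
  have h2 : tt k b η Finset.univ ≤ tt k b ρ Finset.univ := by exact_mod_cast h1
  rwa [chart_tt_eq hρb hb' Finset.univ] at h2

/-- The rank of a subset of the points, as the rank of the family of these points. -/
theorem tt_map {K : Type} [Field K] [Algebra k K] {ι κ : Type} {ξ : ι → Fin (r + 1) → K}
    {b : ι → Fin (r + 1)} (f : κ ↪ ι) (A : Finset κ) :
    tt k b ξ (A.map f) = tt k (fun i => b (f i)) (fun i => ξ (f i)) A := by
  have h1 : ES b ξ (A.map f) = ES (fun i => b (f i)) (fun i => ξ (f i)) A := by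
    ext x
    constructor
    · rintro ⟨i, hi, j, rfl⟩
      obtain ⟨a, ha, rfl⟩ := Finset.mem_map.1 hi
      exact ⟨a, ha, j, rfl⟩
    · rintro ⟨a, ha, j, rfl⟩
      exact ⟨f a, Finset.mem_map_of_mem f ha, j, rfl⟩
  rw [tt, tt, h1]

/-- **The generic member** of a family with fixed coordinates in `L`, free coordinates in `S`, other
coordinates of the first kind on the curve, and arbitrary coordinates of the second kind. -/
theorem exists_generic [IsAlgClosed k] (hn : 2 ≤ n) (hX : VarData k X K0 θ n)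
    (he : 0 < e) (hh : h.IsHomogeneous e) {κ μ : Type} [Fintype κ] [DecidableEq κ] [Fintype μ]
    [DecidableEq μ] {K : Type} [Field K] [Algebra k K] {ξ : κ ⊕ μ → Fin (r + 1) → K}
    {b : κ ⊕ μ → Fin (r + 1)} (hb : ∀ i, ξ i (b i) ≠ 0) (hspz : ∀ i, Spz k θ (fun _ => ξ i)) :
    ∃ (L S : Finset κ) (u : κ → ℙ k (Fin (r + 1) → k)) (K' : Type) (_ : Field K')
      (_ : Algebra k K') (ρ : κ ⊕ μ → Fin (r + 1) → K') (b' : κ ⊕ μ → Fin (r + 1)),
      Disjoint L S ∧
      tt k (fun i => b (Sum.inl i)) (fun i => ξ (Sum.inl i)) Finset.univ ≤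
        (n - 1) * Fintype.card κ + S.card ∧ (∀ i, ρ i (b' i) ≠ 0) ∧ Spz k ξ ρ ∧
      n * S.card ≤ tt k (fun i => b' (Sum.inl i)) (fun i => ρ (Sum.inl i)) S ∧
      ∀ (w : κ ⊕ μ → Fin (r + 1) → k) (hw : ∀ i, w i ≠ 0), Spz k ρ w →
        (∀ i ∈ L, Projectivization.mk k (w (Sum.inl i)) (hw _) = u i) ∧
        ∀ i, i ∉ L → i ∉ S → aeval (w (Sum.inl i)) h = 0 := by
  classical
  have hξ : ∀ i, ξ i ≠ 0 := fun i h0 => hb i (congrFun h0 (b i))
  obtain ⟨L, S, u, hLS, hS, hSn, hpt⟩ := exists_family_point' hn hX he hh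
    (ξ := fun i : κ => ξ (Sum.inl i)) (b := fun i => b (Sum.inl i)) (fun i => hb _)
    (fun i => hspz _)
  -- the generic point of the free coordinates
  let η : S → Fin (r + 1) → K := fun i => ξ (Sum.inl i.1)
  obtain ⟨U, hU⟩ := exists_ultra (k := k) (η := η) (fun i => hξ _)
  -- the points of the family
  have hmem : ∀ a : Pts k η, ∀ i : S, Projectivization.mk k (a.1 i) (a.2.1 i) ∈ X := fun a i =>
    hX.mem_of_spz (ξ := η) (fun i => hspz _) a.2.1 a.2.2 i
  have hX0 : ∀ a : Pts k η, ∃ v : κ ⊕ μ → Fin (r + 1) → k, ∃ hv : ∀ i, v i ≠ 0, Spz k ξ v ∧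
      (∀ i ∈ L, Projectivization.mk k (v (Sum.inl i)) (hv _) = u i) ∧
      (∀ i : S, Projectivization.mk k (v (Sum.inl i.1)) (hv _) =
        Projectivization.mk k (a.1 i) (a.2.1 i)) ∧
      ∀ i, i ∉ L → i ∉ S → aeval (v (Sum.inl i)) h = 0 := by
    intro a
    obtain ⟨v', hv', hv1', hvL, hvS, hvC⟩ := hpt
      (fun i => if hi : i ∈ S then Projectivization.mk k (a.1 ⟨i, hi⟩) (a.2.1 ⟨i, hi⟩) else u i) (by
        intro i hi
        rw [dif_pos hi]
        exact hmem a ⟨i, hi⟩)
    obtain ⟨v, hv, hv1, hv2⟩ := extend_spz hξ (Sum.inl : κ → κ ⊕ μ) hv' hv1'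
    have heq : ∀ i : κ, Projectivization.mk k (v (Sum.inl i)) (hv _) =
        Projectivization.mk k (v' i) (hv' i) := by
      intro i
      obtain ⟨c, hc⟩ := hv2 i
      exact mk_eq_of_smul _ _ hc
    refine ⟨v, hv, hv1, fun i hi => (heq i).trans (hvL i hi), fun i => ?_, fun i h1 h2 => ?_⟩
    · rw [heq, hvS i.1 i.2, dif_pos i.2]
    · rw [← aeval_rep_eq_zero hh (hv _), heq, aeval_rep_eq_zero hh (hv' _)]
      exact hvC i h1 h2
  choose v hv hvspz hvL hvS hvC using hX0
  let ρ : κ ⊕ μ → Fin (r + 1) → UP k U := fun i j => upHom k U (fun a => v a i j)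
  have hρ0 : ∀ i, ρ i ≠ 0 := by
    intro i h0
    have h1 : ∀ j, ∀ᶠ a in (U : Filter (Pts k η)), v a i j = 0 := fun j =>
      (upHom_eq_zero U).1 (congrFun h0 j)
    have h2 : ∀ᶠ a in (U : Filter (Pts k η)), ∀ j, v a i j = 0 :=
      Filter.eventually_all.2 h1
    obtain ⟨a, ha⟩ := h2.exists
    exact hv a i (funext ha)
  obtain ⟨b', hb'⟩ := exists_chart hρ0
  have haev : ∀ G : MvPolynomial ((κ ⊕ μ) × Fin (r + 1)) k,
      aeval (fun p : (κ ⊕ μ) × Fin (r + 1) => ρ p.1 p.2) G =
        upHom k U (fun a => aeval (fun p : (κ ⊕ μ) × Fin (r + 1) => v a p.1 p.2) G) := fun G =>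
    aeval_upHom U (fun p : (κ ⊕ μ) × Fin (r + 1) => fun a => v a p.1 p.2) G
  refine ⟨L, S, u, UP k U, inferInstance, inferInstance, ρ, b', hLS, hS, hb', ?_, ?_, ?_⟩
  · intro G d hG h0
    rw [haev, upHom_eq_zero]
    exact Filter.Eventually.of_forall fun a => hvspz a G d hG h0
  · -- the rank
    have h1 := rank_ultra (k := k) (η := η) (b := fun i => b (Sum.inl i.1))
      (fun i => hb _) (ρ := fun i : S => ρ (Sum.inl i.1)) (b' := fun i => b' (Sum.inl i.1))
      (fun i => hb' _) (by
        intro G d hG h0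
        by_contra hne
        have h2 := hU G d hG hne
        have h3 : aeval (fun p : S × Fin (r + 1) => ρ (Sum.inl p.1.1) p.2) G =
            upHom k U (fun a => aeval (fun p : S × Fin (r + 1) => v a (Sum.inl p.1.1) p.2) G) :=
          aeval_upHom U (fun p : S × Fin (r + 1) => fun a => v a (Sum.inl p.1.1) p.2) G
        rw [h3, upHom_eq_zero] at h0
        obtain ⟨a, ha1, ha2⟩ := (h2.and h0).exists
        apply ha1
        have h4 : ∀ i : S, ∃ c : kˣ, c • v a (Sum.inl i.1) = a.1 i := fun i => by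
          have h5 := (hvS a i).symm
          rw [Projectivization.mk_eq_mk_iff] at h5
          exact h5
        choose c hc using h4
        have h5 := hG.aeval_smul (fun i => (c i : k)) (fun p : S × Fin (r + 1) =>
          v a (Sum.inl p.1.1) p.2)
        rw [ha2, mul_zero] at h5
        have h6 : (fun p : S × Fin (r + 1) => a.1 p.1 p.2) =
            fun p => (c p.1 : k) * v a (Sum.inl p.1.1) p.2 := by
          funext p
          rw [← hc p.1]
          rfl
        rw [h6]
        exact h5)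
    have h2 : ∀ {K : Type} [Field K] [Algebra k K] (ξ : κ → Fin (r + 1) → K)
        (b : κ → Fin (r + 1)), tt k b ξ S =
        tt k (fun i : S => b i.1) (fun i : S => ξ i.1) Finset.univ := by
      intro K _ _ ξ b
      have h3 := tt_map (k := k) (b := b) (ξ := ξ) (Function.Embedding.subtype fun x => x ∈ S)
        Finset.univ
      have h4 : (Finset.univ : Finset S).map (Function.Embedding.subtype fun x => x ∈ S) = S := by
        rw [← Finset.attach_eq_univ, Finset.attach_map_val]
      rw [h4] at h3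
      exact h3
    rw [h2 (fun i => ξ (Sum.inl i)) (fun i => b (Sum.inl i))] at hSn
    rw [h2 (fun i => ρ (Sum.inl i)) (fun i => b' (Sum.inl i))]
    exact hSn.trans h1
  · intro w hw hwspz
    refine ⟨fun i hi => ?_, fun i h1 h2 => ?_⟩
    · -- minors
      have hmin : ∀ j l, w (Sum.inl i) j * (u i).rep l = w (Sum.inl i) l * (u i).rep j := by
        intro j l
        have hhom : (MvPolynomial.X j * C ((u i).rep l) - MvPolynomial.X l * C ((u i).rep j) :
            MvPolynomial (Fin (r + 1)) k).IsHomogeneous 1 := by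
          refine MvPolynomial.IsHomogeneous.sub ?_ ?_
          · simpa using (isHomogeneous_X k j).mul (isHomogeneous_C (Fin (r + 1)) ((u i).rep l))
          · simpa using (isHomogeneous_X k l).mul (isHomogeneous_C (Fin (r + 1)) ((u i).rep j))
        have h3 := hwspz (rename (fun j => (Sum.inl i, j))
          (MvPolynomial.X j * C ((u i).rep l) - MvPolynomial.X l * C ((u i).rep j)))
          (Pi.single (Sum.inl i) 1) (multiHomogeneous_rename (Sum.inl i) hhom) (by
            rw [haev, upHom_eq_zero]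
            refine Filter.Eventually.of_forall fun a => ?_
            rw [aeval_rename]
            have h4 := hvL a i hi
            have h5 : Projectivization.mk k (v a (Sum.inl i)) (hv a _) =
                Projectivization.mk k (u i).rep (u i).rep_nonzero := by
              rw [h4, (u i).mk_rep]
            rw [Projectivization.mk_eq_mk_iff] at h5
            obtain ⟨c, hc⟩ := h5
            have h6 : ∀ j, v a (Sum.inl i) j = (c : k) * (u i).rep j := fun j => by
              rw [← hc]
              rfl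
            rw [map_sub, map_mul, map_mul, aeval_X, aeval_X, aeval_C, aeval_C]
            change v a (Sum.inl i) j * (u i).rep l - v a (Sum.inl i) l * (u i).rep j = 0
            rw [h6, h6]
            ring)
        rw [aeval_rename, map_sub, map_mul, map_mul, aeval_X, aeval_X, aeval_C, aeval_C] at h3
        exact sub_eq_zero.1 h3
      obtain ⟨l, hl⟩ := Function.ne_iff.1 (u i).rep_nonzero
      have hl' : (u i).rep l ≠ 0 := hl
      rw [← (u i).mk_rep]
      refine mk_eq_of_smul _ _ (c := w (Sum.inl i) l / (u i).rep l) ?_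
      funext j
      rw [Pi.smul_apply, smul_eq_mul, div_mul_eq_mul_div, eq_div_iff hl']
      exact hmin j l
    · have h3 := hwspz (rename (fun j => (Sum.inl i, j)) h) (Pi.single (Sum.inl i) e)
        (multiHomogeneous_rename (Sum.inl i) hh) (by
          rw [haev, upHom_eq_zero]
          refine Filter.Eventually.of_forall fun a => ?_
          rw [aeval_rename]
          exact hvC a i h1 h2)
      rw [aeval_rename] at h3
      exact h3

end Pool.Agent.K7.H3.ZR
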