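import Pool.Agent.K7.H3.ZN.Final

/-!
# Reduction of differences of effective cycles
-/

set_option autoImplicit false

open MvPolynomial FF
open scoped LinearAlgebra.Projectivization

namespace Pool.Agent.K7.H3.ZR

open Pool.Agent.K7.H3.ZN
open Pool.Agent.K7.H3.ZC (aff ES Spz tt coe_tt tt_empty tt_submod rank_point exists_hom_ne_zero
  exists_spz' exists_chart exists_hom chart_tt_eq mem_adjoin_ES ES_finite ES_union exists_put
  mk_eq_of_smul smul_of_ratio reduce_fix cyM cyM_map cyM_add cyM_zero exists_diff exists_fin_map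
  exists_finset_map cycle aeval_rep_eq_zero)

/-- Splitting of a multiset. -/
theorem exists_split {A : Type} {S : Multiset A} {p : ℕ} (h : p ≤ S.card) :
    ∃ S1 S2 : Multiset A, S = S1 + S2 ∧ S1.card = p := by
  classical
  have h1 : 0 < (Multiset.powersetCard p S).card := by
    rw [Multiset.card_powersetCard]
    exact Nat.choose_pos h
  obtain ⟨T, hT⟩ := Multiset.card_pos_iff_exists_mem.1 h1
  obtain ⟨U, hU⟩ := Multiset.le_iff_exists_add.1 (Multiset.mem_powersetCard.1 hT).1
  exact ⟨T, U, hU, (Multiset.mem_powersetCard.1 hT).2⟩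

/-- **Reduction of pairs.** If each difference of `p` points and `q` points is, up to a constant cycle
and a cycle on `H`, a difference of `m1` points and `m2` points, and `m1 + m2 < p + q`, then all
differences of sums of `N` points are differences of sums of less than `p + q` points, up to cycles on
`H`. -/
theorem reduce_pairs {A : Type} {X H : Set A} {R : AddSubgroup (A →₀ ℤ)} {p q m1 m2 z1 z2 : ℕ}
    {U : A →₀ ℤ} (hm : m1 + m2 < p + q)
    (hred : ∀ S T : Multiset A, (∀ x ∈ S, x ∈ X) → (∀ x ∈ T, x ∈ X) → S.card = p → T.card = q →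
      ∃ Y Y' Z Z' : Multiset A, (∀ x ∈ Y, x ∈ X) ∧ (∀ x ∈ Y', x ∈ X) ∧ (∀ x ∈ Z, x ∈ H) ∧
        (∀ x ∈ Z', x ∈ H) ∧ Y.card = m1 ∧ Y'.card = m2 ∧ Z.card = z1 ∧ Z'.card = z2 ∧
        (cyM S - cyM T) + U + (cyM Z - cyM Z') - (cyM Y - cyM Y') ∈ R) (N : ℕ) :
    ∀ S T : Multiset A, (∀ x ∈ S, x ∈ X) → (∀ x ∈ T, x ∈ X) → S.card = N → T.card = N →
      ∃ S' T' Z Z' : Multiset A, (∀ x ∈ S', x ∈ X) ∧ (∀ x ∈ T', x ∈ X) ∧ (∀ x ∈ Z, x ∈ H) ∧
        (∀ x ∈ Z', x ∈ H) ∧ S'.card = T'.card ∧ S'.card < p + q ∧ Z.card = Z'.card ∧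
        (cyM S - cyM T) - (cyM S' - cyM T') - (cyM Z - cyM Z') ∈ R := by
  classical
  induction N using Nat.strong_induction_on with
  | _ N ih =>
    intro S T hS hT hSc hTc
    by_cases hN : N < p + q
    · refine ⟨S, T, 0, 0, hS, hT, by simp, by simp, by rw [hSc, hTc], by rw [hSc]; exact hN, rfl, ?_⟩
      rw [sub_self, sub_self, sub_zero]
      exact R.zero_mem
    push Not at hN
    obtain ⟨S1, S23, rfl, hS1⟩ := exists_split (S := S) (p := p) (by omega)
    rw [Multiset.card_add] at hSc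
    obtain ⟨S2, S3, rfl, hS2⟩ := exists_split (S := S23) (p := q) (by omega)
    rw [Multiset.card_add] at hSc
    obtain ⟨T1, T23, rfl, hT1⟩ := exists_split (S := T) (p := q) (by omega)
    rw [Multiset.card_add] at hTc
    obtain ⟨T2, T3, rfl, hT2⟩ := exists_split (S := T23) (p := p) (by omega)
    rw [Multiset.card_add] at hTc
    simp only [Multiset.mem_add] at hS hT
    obtain ⟨Y, Y', Z, Z', hY, hY', hZ, hZ', hYc, hYc', hZc, hZc', hR⟩ :=
      hred S1 T1 (fun x hx => hS x (Or.inl hx)) (fun x hx => hT x (Or.inl hx)) hS1 hT1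
    obtain ⟨V, V', W, W', hV, hV', hW, hW', hVc, hVc', hWc, hWc', hR'⟩ :=
      hred T2 S2 (fun x hx => hT x (Or.inr (Or.inl hx))) (fun x hx => hS x (Or.inr (Or.inl hx)))
        hT2 hS2
    obtain ⟨S', T', P, P', hS', hT', hP, hP', hST', hlt, hPc, hR''⟩ := ih (N - (p + q) + (m1 + m2))
      (by omega) (Y + V' + S3) (Y' + V + T3) (by
        intro x hx
        simp only [Multiset.mem_add] at hx
        rcases hx with (hx | hx) | hx
        · exact hY x hx
        · exact hV' x hx
        · exact hS x (Or.inr (Or.inr hx))) (by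
        intro x hx
        simp only [Multiset.mem_add] at hx
        rcases hx with (hx | hx) | hx
        · exact hY' x hx
        · exact hV x hx
        · exact hT x (Or.inr (Or.inr hx))) (by
        simp only [Multiset.card_add]
        omega) (by
        simp only [Multiset.card_add]
        omega)
    refine ⟨S', T', P + (Z' + W), P' + (Z + W'), hS', hT', ?_, ?_, hST', hlt, ?_, ?_⟩
    · intro x hx
      simp only [Multiset.mem_add] at hx
      rcases hx with hx | hx | hx
      · exact hP x hx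
      · exact hZ' x hx
      · exact hW x hx
    · intro x hx
      simp only [Multiset.mem_add] at hx
      rcases hx with hx | hx | hx
      · exact hP' x hx
      · exact hZ x hx
      · exact hW' x hx
    · simp only [Multiset.card_add]
      omega
    · have h1 := add_mem (sub_mem hR hR') hR''
      convert h1 using 1
      simp only [cyM_add]
      abel

variable {k : Type} [Field k] {r : ℕ} {X : Set (ℙ k (Fin (r + 1) → k))}

/-- The conclusion from a reduction of pairs. -/
theorem genMul_of_pairs {H : Set (ℙ k (Fin (r + 1) → k))} {x0 : ℙ k (Fin (r + 1) → k)}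
    (hx0 : x0 ∈ X) {R : AddSubgroup (ℙ k (Fin (r + 1) → k) →₀ ℤ)} {M : ℕ}
    (hred : ∀ (N : ℕ) (S T : Multiset (ℙ k (Fin (r + 1) → k))), (∀ x ∈ S, x ∈ X) →
      (∀ x ∈ T, x ∈ X) → S.card = N → T.card = N →
      ∃ S' T' Z Z' : Multiset (ℙ k (Fin (r + 1) → k)), (∀ x ∈ S', x ∈ X) ∧ (∀ x ∈ T', x ∈ X) ∧
        (∀ x ∈ Z, x ∈ H) ∧ (∀ x ∈ Z', x ∈ H) ∧ S'.card = T'.card ∧ S'.card ≤ M ∧
        Z.card = Z'.card ∧ (cyM S - cyM T) - (cyM S' - cyM T') - (cyM Z - cyM Z') ∈ R) :
    GenMul R X H 1 M := by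
  classical
  intro Z hZ h0
  obtain ⟨S, T, hS, hT, hcard, hZST⟩ := exists_diff hZ h0
  obtain ⟨S', T', P, P', hS', hT', hP, hP', hST', hle, hPc, hR⟩ :=
    hred S.card S T hS hT rfl hcard.symm
  have hpad : ∀ P : Multiset (ℙ k (Fin (r + 1) → k)), (∀ p ∈ P, p ∈ X) → P.card = S'.card →
      ∃ x : Fin M → ℙ k (Fin (r + 1) → k), (∀ i, x i ∈ X) ∧
        cycle x = cyM P + cyM (Multiset.replicate (M - S'.card) x0) := by
    intro P hP hPc
    obtain ⟨x, hx⟩ := exists_fin_map (n := M) (P + Multiset.replicate (M - S'.card) x0) (by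
      rw [Multiset.card_add, Multiset.card_replicate, hPc]
      omega)
    refine ⟨x, fun i => ?_, ?_⟩
    · have h1 : x i ∈ P + Multiset.replicate (M - S'.card) x0 := by
        rw [hx]
        exact Multiset.mem_map_of_mem x (Finset.mem_univ i)
      rcases Multiset.mem_add.1 h1 with h1 | h1
      · exact hP _ h1
      · rw [Multiset.eq_of_mem_replicate h1]
        exact hx0
    · have h2 : cycle x = cyM (P + Multiset.replicate (M - S'.card) x0) := by
        rw [hx, cyM_map]
        rfl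
      rw [h2, cyM_add]
  obtain ⟨x, hxX, hx⟩ := hpad S' hS' rfl
  obtain ⟨x', hxX', hx'⟩ := hpad T' hT' hST'.symm
  refine ⟨x, x', (1 : ℤ) • (cyM P - cyM P'), hxX, hxX',
    support_sub_cyM hP hP' _, sum_zero_of_card hPc _, ?_⟩
  convert hR using 1
  rw [hx, hx', hZST, one_smul, one_smul]
  abel

end Pool.Agent.K7.H3.ZR
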