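import Pool.Agent.K7.H3.ZR.Weights

/-!
# The theorem on weighted sums of points
-/

set_option autoImplicit false

open MvPolynomial FF
open scoped LinearAlgebra.Projectivization

namespace Pool.Agent.K7.H3.ZR

open Pool.Agent.K7.H3.ZN
open Pool.Agent.K7.H3.ZC (IsVariety aff ES Spz tt coe_tt tt_empty tt_submod rank_point
  exists_chart tt_univ cyM cyM_map cyM_add cyM_zero exists_fin_map
  exists_finset_map cycle aeval_rep_eq_zero ratEquiv exists_not_mem_curve MultiHomogeneous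
  exists_point)

variable {k : Type} [Field k] {r : ℕ} {X : Set (ℙ k (Fin (r + 1) → k))}

/-- **From generation modulo curves to finite-dimensionality**, for multiples. -/
theorem finMul_of_curves [IsAlgClosed k] [CharZero k]
    {h : MvPolynomial (Fin (r + 1)) k} {e : ℕ} (he : 0 < e) (hh : h.IsHomogeneous e)
    (hC : IsVariety k {z : Fin 1 → ℙ k (Fin (r + 1) → k) | z 0 ∈ X ∧ aeval (z 0).rep h = 0} 1)
    {s : ℕ} {D : Fin s → Set (ℙ k (Fin (r + 1) → k))}
    (hD : ∀ a, IsVariety k {z : Fin 1 → ℙ k (Fin (r + 1) → k) | z 0 ∈ D a} 1)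
    (hDX : ∀ a, D a ⊆ X) {c : ℤ} {M : ℕ}
    (hgen : GenMul (ratEquiv X ⊔ supp {p | ∃ a, p ∈ D a} ⊔
      supp {x | x ∈ X ∧ aeval x.rep h = 0}) X {x | x ∈ X ∧ aeval x.rep h = 0} c M) :
    ∃ M', FinMul (ratEquiv X) X c M' := by
  classical
  -- the union of the curves
  have hbdd : ∀ A : Finset (Fin s),
      Bdd X ({x | x ∈ X ∧ aeval x.rep h = 0} ∪ {p | ∃ a ∈ A, p ∈ D a}) := by
    intro A
    induction A using Finset.induction_on with
    | empty =>
      refine (bdd_curve (C := {x | x ∈ X ∧ aeval x.rep h = 0}) hC fun x hx => hx.1).mono ?_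
      rintro p (hp | ⟨a, ha, -⟩)
      · exact hp
      · exact absurd ha (Finset.notMem_empty a)
    | insert a A _ ih =>
      obtain ⟨p, hpD, hp⟩ := exists_meet (hD a) he hh
      refine (bdd_union ih (bdd_curve (hD a) (hDX a)) (p := p)
        (Or.inl ⟨hDX a hpD, hp⟩) hpD).mono ?_
      rintro x (hx | ⟨a', ha', hx⟩)
      · exact Or.inl (Or.inl hx)
      · rcases Finset.mem_insert.1 ha' with rfl | ha'
        · exact Or.inr hx
        · exact Or.inl (Or.inr ⟨a', ha', hx⟩)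
  obtain ⟨g, hg⟩ := hbdd Finset.univ
  refine ⟨M + g, fun Z hZ h0 => ?_⟩
  obtain ⟨x, y, Z', hx, hy, hZ', h0', hR⟩ := hgen Z hZ h0
  obtain ⟨ρ', hρ', E', hE', hsum'⟩ := AddSubgroup.mem_sup.1 hR
  obtain ⟨ρ, hρ, E, hE, hsum⟩ := AddSubgroup.mem_sup.1 hρ'
  have hρ0 := dg_ratEquiv hρ
  have hE0 : dg (E + E') = 0 := by
    have h1 : ρ + (E + E') = c • Z - (cycle x - cycle y) - Z' := by
      rw [← hsum', ← hsum]
      abel
    have h2 := congrArg dg h1
    rw [map_add, hρ0, zero_add, map_sub, map_sub, map_sub, dg_cycle, dg_cycle, map_zsmul,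
      show dg Z = 0 from h0, show dg Z' = 0 from h0'] at h2
    rw [h2, smul_zero]
    ring
  obtain ⟨P, Q, hP, hQ, hPc, hQc, hPQ⟩ := hg (Z' + (E + E')) (add_mem
    (mem_supp.2 fun p hp => Or.inl (hZ' p hp)) (add_mem (mem_supp.2 fun p hp => by
      obtain ⟨a, ha⟩ := mem_supp.1 hE p hp
      exact Or.inr ⟨a, Finset.mem_univ a, ha⟩)
      (mem_supp.2 fun p hp => Or.inl (mem_supp.1 hE' p hp)))) (by
    rw [map_add, hE0, show dg Z' = 0 from h0', add_zero])
  have hpad : ∀ (x : Fin M → ℙ k (Fin (r + 1) → k)) (P : Multiset (ℙ k (Fin (r + 1) → k))),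
      (∀ i, x i ∈ X) → (∀ p ∈ P, p ∈ X) → P.card = g →
      ∃ x' : Fin (M + g) → ℙ k (Fin (r + 1) → k), (∀ i, x' i ∈ X) ∧
        cycle x' = cycle x + cyM P := by
    intro x P hx hP hPc
    have hx1 : cycle x = cyM ((Finset.univ : Finset (Fin M)).val.map x) := by
      rw [cyM_map]
      rfl
    obtain ⟨x', hx'⟩ := exists_fin_map (n := M + g)
      ((Finset.univ : Finset (Fin M)).val.map x + P) (by
        rw [Multiset.card_add, Multiset.card_map, hPc]
        change Finset.card _ + g = _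
        rw [Finset.card_univ, Fintype.card_fin])
    refine ⟨x', fun i => ?_, ?_⟩
    · have h1 : x' i ∈ (Finset.univ : Finset (Fin M)).val.map x + P := by
        rw [hx']
        exact Multiset.mem_map_of_mem x' (Finset.mem_univ i)
      rcases Multiset.mem_add.1 h1 with h1 | h1
      · obtain ⟨j, -, h2⟩ := Multiset.mem_map.1 h1
        rw [← h2]
        exact hx j
      · exact hP _ h1
    · have h2 : cycle x' = cyM ((Finset.univ : Finset (Fin M)).val.map x + P) := by
        rw [hx', cyM_map]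
        rfl
      rw [h2, cyM_add, ← hx1]
  obtain ⟨x', hxX', hx'⟩ := hpad x P hx hP hPc
  obtain ⟨y', hyX', hy'⟩ := hpad y Q hy hQ hQc
  refine ⟨x', y', hxX', hyX', ?_⟩
  have h1 := add_mem hρ hPQ
  have h2 : ρ = c • Z - (cycle x - cycle y) - Z' - (E + E') := by
    have h3 : ρ + (E + E') = c • Z - (cycle x - cycle y) - Z' := by
      rw [← hsum', ← hsum]
      abel
    rw [← h3]
    abel
  rw [h2] at h1
  convert h1 using 1
  rw [hx', hy']
  abel

/-- **Weighted sums.** -/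
theorem surface_weighted [IsAlgClosed k] [CharZero k]
    (hX : IsVariety k {z : Fin 1 → ℙ k (Fin (r + 1) → k) | z 0 ∈ X} 2)
    {h : MvPolynomial (Fin (r + 1)) k} {e : ℕ} (he : 0 < e) (hh : h.IsHomogeneous e)
    (hC : IsVariety k {z : Fin 1 → ℙ k (Fin (r + 1) → k) | z 0 ∈ X ∧ aeval (z 0).rep h = 0} 1)
    {s : ℕ} {D : Fin s → Set (ℙ k (Fin (r + 1) → k))}
    (hD : ∀ a, IsVariety k {z : Fin 1 → ℙ k (Fin (r + 1) → k) | z 0 ∈ D a} 1)
    (hDX : ∀ a, D a ⊆ X) {n m q l : ℕ} {Z : Set (Fin n → ℙ k (Fin (r + 1) → k))}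
    (hZ : IsVariety k Z q) (hm : n + m < q) {W : Set (Fin (n + m) → ℙ k (Fin (r + 1) → k))}
    (hW : IsVariety k W l) (hWX : ∀ w ∈ W, ∀ i, w i ∈ X)
    (honto : ∀ z ∈ Z, ∃ y : Fin m → ℙ k (Fin (r + 1) → k), Fin.append z y ∈ W)
    {c : Fin (n + m) → ℤ}
    (hconst : ∀ w ∈ W, ∀ w' ∈ W, ∃ E : ℙ k (Fin (r + 1) → k) →₀ ℤ,
      (∀ p ∈ E.support, ∃ a, p ∈ D a) ∧
        ∑ i, Finsupp.single (w i) (c i) - ∑ i, Finsupp.single (w' i) (c i) - E ∈ ratEquiv X) :
    ∃ (i : Fin n) (M : ℕ), FinMul (ratEquiv X) X (c (Fin.castAdd m i)) M := by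
  classical
  obtain ⟨K0, _, _, θ, hXθ⟩ := varData hX
  obtain ⟨K, _, _, ξ, hξ, hgen, htr, hWξ⟩ := hW
  obtain ⟨b, hb⟩ := exists_chart hξ
  have hmem : ∀ (v : Fin (n + m) → Fin (r + 1) → k) (hv : ∀ i, v i ≠ 0), Spz k ξ v →
      (fun i => Projectivization.mk k (v i) (hv i)) ∈ W := fun v hv hv1 =>
    (hWξ _).2 (hv1.rep hv)
  have hspz : ∀ i, Spz k θ (fun _ => ξ i) :=
    hXθ.spz_of_forall hξ fun v hv hv1 i => hWX _ (hmem v hv hv1) i
  -- the rank
  have hrank : q ≤ tt k (fun i => b (Fin.castAdd m i)) (fun i => ξ (Fin.castAdd m i))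
      Finset.univ := by
    obtain ⟨K1, _, _, ζ, hζ, hgen1, htr1, hZζ⟩ := hZ
    obtain ⟨b1, hb1⟩ := exists_chart hζ
    rw [← tt_univ hgen1 htr1 hb1]
    refine rank_ultra (k := k) hb1 (fun i => hb _) fun G d hG h0 => ?_
    by_contra hne
    obtain ⟨v, hv, hv1, hv2⟩ := exists_point hζ hG hne
    apply hv2
    obtain ⟨y, hy⟩ := honto _ ((hZζ (fun i => Projectivization.mk k (v i) (hv i))).2 (hv1.rep hv))
    have h1 : Spz k ξ (fun i => (Fin.append (fun i => Projectivization.mk k (v i) (hv i)) y i).rep) :=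
      (hWξ _).1 hy
    have h2 := Spz_comp h1 (Fin.castAdd_injective n m)
    have h3 := h2 G d hG h0
    have h4 : ∀ i, ∃ a : kˣ, a • v i = (Projectivization.mk k (v i) (hv i)).rep := fun i =>
      Projectivization.exists_smul_eq_mk_rep k (v i) (hv i)
    choose a ha using h4
    have h5 := hG.aeval_smul (fun i => (a i : k)) (fun p => v p.1 p.2)
    have h6 : (fun p : Fin n × Fin (r + 1) => (a p.1 : k) * v p.1 p.2) =
        fun p => (Fin.append (fun i => Projectivization.mk k (v i) (hv i)) y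
          (Fin.castAdd m p.1)).rep p.2 := by
      funext p
      rw [Fin.append_left, ← ha p.1]
      rfl
    rw [h6, h3] at h5
    exact (mul_eq_zero.1 h5.symm).resolve_left
      (Finset.prod_ne_zero_iff.2 fun i _ => pow_ne_zero _ (a i).ne_zero)
  obtain ⟨i, M, hM⟩ := weights_core (κ := Fin n) (μ := Fin m) (n := 2)
    (R := ratEquiv X ⊔ supp {p | ∃ a, p ∈ D a}) le_rfl hXθ he hh
    (exists_not_mem_curve hX hC) (ξ := fun i => ξ (finSumFinEquiv i))
    (b := fun i => b (finSumFinEquiv i)) (fun i => hb _) (fun i => hspz _)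
    (c := fun i => c (finSumFinEquiv i)) (by
      rw [Fintype.card_fin, Fintype.card_fin]
      have h1 : (fun i : Fin n => ξ (finSumFinEquiv (Sum.inl i : Fin n ⊕ Fin m))) =
          fun i => ξ (Fin.castAdd m i) := rfl
      change (2 - 1) * n + m < tt k (fun i => b (Fin.castAdd m i))
        (fun i => ξ (Fin.castAdd m i)) Finset.univ
      omega) (by
      intro v v' hv hv' hvs hvs'
      have h1 : ∀ (v : Fin n ⊕ Fin m → Fin (r + 1) → k) (hv : ∀ i, v i ≠ 0),
          Spz k (fun i => ξ (finSumFinEquiv i)) v →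
          (fun i => Projectivization.mk k (v (finSumFinEquiv.symm i)) (hv _)) ∈ W := by
        intro v hv hvs
        refine hmem (fun i => v (finSumFinEquiv.symm i)) (fun i => hv _) ?_
        have h2 := Spz_comp hvs (f := fun i : Fin (n + m) => finSumFinEquiv.symm i)
          finSumFinEquiv.symm.injective
        simpa using h2
      have h2 : ∀ (v : Fin n ⊕ Fin m → Fin (r + 1) → k) (hv : ∀ i, v i ≠ 0),
          ∑ i, Finsupp.single (Projectivization.mk k (v i) (hv i)) (c (finSumFinEquiv i)) =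
          ∑ i, Finsupp.single (Projectivization.mk k (v (finSumFinEquiv.symm i)) (hv _)) (c i) := by
        intro v hv
        refine Fintype.sum_equiv finSumFinEquiv _ _ fun i => ?_
        rw [Equiv.symm_apply_apply]
      obtain ⟨E, hE, hR⟩ := hconst _ (h1 v hv hvs) _ (h1 v' hv' hvs')
      rw [h2 v hv, h2 v' hv']
      refine AddSubgroup.mem_sup.2 ⟨_, hR, E, mem_supp.2 hE, ?_⟩
      abel)
  obtain ⟨M', hM'⟩ := finMul_of_curves he hh hC hD hDX hM
  exact ⟨i, M', hM'⟩

end Pool.Agent.K7.H3.ZR
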