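import Pool.Agent.K7.H3.ZR.Gen

/-!
# Arbitrary weights
-/

set_option autoImplicit false

open MvPolynomial FF
open scoped LinearAlgebra.Projectivization

namespace Pool.Agent.K7.H3.ZR

open Pool.Agent.K7.H3.ZN
open Pool.Agent.K7.H3.ZC (IsVariety aff ES Spz tt coe_tt tt_empty tt_submod rank_point
  exists_chart exists_hom chart_tt_eq mem_adjoin_ES ES_finite ES_union exists_put
  mk_eq_of_smul cyM cyM_map cyM_add cyM_zero exists_diff exists_fin_map
  exists_finset_map cycle aeval_rep_eq_zero MultiHomogeneous exists_point rk_le_of_spz rk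
  multiHomogeneous_rename tt_mono rk_le_of_isAlgebraic isAlgebraic_mem spz_one cut ratEquiv
  IsFiniteDimensional exists_not_mem_curve tt_univ)

variable {k : Type} [Field k] {r : ℕ} {X : Set (ℙ k (Fin (r + 1) → k))} {K0 : Type} [Field K0]
  [Algebra k K0] {θ : Fin 1 → Fin (r + 1) → K0} {n : ℕ} {h : MvPolynomial (Fin (r + 1)) k} {e : ℕ}

/-- **Moving lemma** for a given set of independent generic points. -/
theorem move_core_of [IsAlgClosed k] (hX : VarData k X K0 θ n)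
    {h : MvPolynomial (Fin (r + 1)) k} {e : ℕ} (he : 0 < e) (hh : h.IsHomogeneous e)
    (hC : ∃ x ∈ X, aeval x.rep h ≠ 0) {ι : Type} [Fintype ι] [DecidableEq ι]
    {K : Type} [Field K] [Algebra k K] {ξ : ι → Fin (r + 1) → K} {b : ι → Fin (r + 1)}
    (hb : ∀ i, ξ i (b i) ≠ 0) (hspz : ∀ i, Spz k θ (fun _ => ξ i)) {I : Finset ι}
    (hI : n * I.card ≤ tt k b ξ I) (hIc : tt k b ξ Iᶜ < tt k b ξ Finset.univ)
    {R : AddSubgroup (ℙ k (Fin (r + 1) → k) →₀ ℤ)} {c : ι → ℤ}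
    (hconst : ConstClass R c ξ) :
    ∃ i0 ∈ I, ∀ a : ι → ℙ k (Fin (r + 1) → k), (∀ i ∈ I, a i ∈ X) →
      ∃ v : ι → ℙ k (Fin (r + 1) → k), (∀ i ∈ I, v i ∈ X) ∧ aeval (v i0).rep h = 0 ∧
        ∑ i ∈ I, Finsupp.single (a i) (c i) - ∑ i ∈ I, Finsupp.single (v i) (c i) ∈ R := by
  have hξ : ∀ i, ξ i ≠ 0 := fun i h0 => hb i (congrFun h0 (b i))
  have hle : ∀ i, tt k b ξ {i} ≤ n := fun i => (rank_point hX.gen hX.tr (hspz i) (hb i)).1
  -- the points with index in `I` are generic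
  have hgenI : ∀ i ∈ I, Spz k (fun _ : Fin 1 => ξ i) θ := by
    intro i hi
    apply (rank_point hX.gen hX.tr (hspz i) (hb i)).2
    have h1 := tt_submod (k := k) b ξ {i} (I.erase i)
    rw [← Finset.insert_eq, Finset.insert_erase hi] at h1
    have h2 := poly_le (tt_submod (k := k) b ξ) (tt_empty b ξ) hle (I.erase i)
    have h7 : n * (I.erase i).card + n = n * I.card := by
      have h6 : 0 < I.card := Finset.card_pos.2 ⟨i, hi⟩
      rw [Finset.card_erase_of_mem hi, ← Nat.mul_succ]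
      congr 1
      omega
    omega
  -- the form `h` does not vanish in the generic points
  have hhI : ∀ i ∈ I, aeval (ξ i) h ≠ 0 := by
    intro i hi h0
    obtain ⟨x, hxX, hx⟩ := hC
    apply hx
    have h1 := (hX.mem x).1 hxX
    exact spz_one.1 ((hgenI i hi).trans h1) h e hh h0
  -- a coordinate which is not algebraic over the others
  obtain ⟨i, hi, j, hij⟩ : ∃ i ∈ I, ∃ j, ¬ IsAlgebraic (Algebra.adjoin k (ES b ξ Iᶜ))
      (ξ i j / ξ i (b i)) := by
    by_contra hcon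
    push Not at hcon
    have h1 : rk k (ES b ξ Finset.univ) ≤ rk k (ES b ξ Iᶜ) := by
      apply rk_le_of_isAlgebraic
      rintro x ⟨i, -, j, rfl⟩
      by_cases hi : i ∈ I
      · exact hcon i hi j
      · exact isAlgebraic_mem ⟨i, Finset.mem_compl.2 hi, j, rfl⟩
    rw [← coe_tt, ← coe_tt] at h1
    have h2 : tt k b ξ Finset.univ ≤ tt k b ξ Iᶜ := by exact_mod_cast h1
    omega
  refine ⟨i, hi, fun a ha => ?_⟩
  obtain ⟨v, hv, hv1, hv2⟩ := extend_indep hξ (I := I) (b := b) hb hI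
    (fun i _ => hle i) (a := fun i => (a i).rep) (fun i _ => (a i).rep_nonzero) (by
      intro i hi
      exact (hgenI i hi).trans ((hX.mem (a i)).1 (ha i hi)))
  obtain ⟨v', hv', hv1', hv2', hv3'⟩ := cut hξ hv hv1 (J := Iᶜ) he hh (hhI i hi)
    (fun j _ => hb j) hij
  have heqI : ∀ i ∈ I, Projectivization.mk k (v i) (hv i) = a i := by
    intro i hi
    obtain ⟨c, hc⟩ := hv2 i hi
    rw [← (a i).mk_rep]
    exact mk_eq_of_smul _ _ hc
  have heqJ : ∀ j ∈ Iᶜ, Projectivization.mk k (v' j) (hv' j) = Projectivization.mk k (v j) (hv j) := by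
    intro j hj
    obtain ⟨c, hc⟩ := hv2' j hj
    exact mk_eq_of_smul _ _ hc
  refine ⟨fun i => Projectivization.mk k (v' i) (hv' i),
    fun i _ => hX.mem_of_spz hspz hv' hv1' i, (aeval_rep_eq_zero hh (hv' i)).2 hv3', ?_⟩
  have h1 := hconst v v' hv hv' hv1 hv1'
  have e1 : ∑ i ∈ I, Finsupp.single (Projectivization.mk k (v i) (hv i)) (c i) =
      ∑ i ∈ I, Finsupp.single (a i) (c i) :=
    Finset.sum_congr rfl fun i hi => by rw [heqI i hi]
  have e2 : ∑ i ∈ Iᶜ, Finsupp.single (Projectivization.mk k (v' i) (hv' i)) (c i) =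
      ∑ i ∈ Iᶜ, Finsupp.single (Projectivization.mk k (v i) (hv i)) (c i) :=
    Finset.sum_congr rfl fun i hi => by rw [heqJ i hi]
  rw [← Finset.sum_add_sum_compl I, ← Finset.sum_add_sum_compl I, e1, e2,
    add_sub_add_right_eq_sub] at h1
  exact h1

theorem GenMul.mono {R R' : AddSubgroup (ℙ k (Fin (r + 1) → k) →₀ ℤ)} (hR : R ≤ R')
    {H : Set (ℙ k (Fin (r + 1) → k))} {c : ℤ} {M : ℕ} (hg : GenMul R X H c M) :
    GenMul R' X H c M := by
  intro Z hZ h0
  obtain ⟨x, y, Z', h1, h2, h3, h4, h5⟩ := hg Z hZ h0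
  exact ⟨x, y, Z', h1, h2, h3, h4, hR h5⟩

/-- The restriction to the free points and the points of the second kind. -/
def sel {κ μ : Type} (S : Finset κ) : S ⊕ μ → κ ⊕ μ := Sum.map Subtype.val id

theorem sum_split {A κ μ : Type} [Fintype κ] [DecidableEq κ] [Fintype μ] {L S : Finset κ}
    (hLS : Disjoint L S) (P : κ ⊕ μ → A) (c : κ ⊕ μ → ℤ) :
    ∑ i, Finsupp.single (P i) (c i) =
      ∑ i : S ⊕ μ, Finsupp.single (P (sel S i)) (c (sel S i)) +
        (∑ i ∈ L, Finsupp.single (P (Sum.inl i)) (c (Sum.inl i)) +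
          ∑ i ∈ (L ∪ S)ᶜ, Finsupp.single (P (Sum.inl i)) (c (Sum.inl i))) := by
  have e1 : ∑ i ∈ S, Finsupp.single (P (Sum.inl i)) (c (Sum.inl i)) =
      ∑ i : S, Finsupp.single (P (sel (μ := μ) S (Sum.inl i))) (c (sel S (Sum.inl i))) := by
    rw [← Finset.sum_coe_sort S]
    rfl
  rw [Fintype.sum_sum_type, Fintype.sum_sum_type,
    ← Finset.sum_add_sum_compl (L ∪ S) (fun i => Finsupp.single (P (Sum.inl i)) (c (Sum.inl i))),
    Finset.sum_union hLS, e1]
  have e2 : ∀ j : μ, sel S (Sum.inr j) = (Sum.inr j : κ ⊕ μ) := fun j => rfl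
  simp only [e2]
  abel

theorem constClass_sel [IsAlgClosed k] {R : AddSubgroup (ℙ k (Fin (r + 1) → k) →₀ ℤ)}
    {κ μ : Type} [Fintype κ] [DecidableEq κ] [Fintype μ] [DecidableEq μ] {K' : Type} [Field K']
    [Algebra k K'] {ρ : κ ⊕ μ → Fin (r + 1) → K'} (hρ0 : ∀ i, ρ i ≠ 0) {c : κ ⊕ μ → ℤ}
    (hh : h.IsHomogeneous e) {L S : Finset κ} (hLS : Disjoint L S)
    {u : κ → ℙ k (Fin (r + 1) → k)} (hX : VarData k X K0 θ n)
    (hρspz : ∀ i, Spz k θ (fun _ => ρ i)) (hconst : ConstClass R c ρ)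
    (hw : ∀ (w : κ ⊕ μ → Fin (r + 1) → k) (hw : ∀ i, w i ≠ 0), Spz k ρ w →
        (∀ i ∈ L, Projectivization.mk k (w (Sum.inl i)) (hw _) = u i) ∧
        ∀ i, i ∉ L → i ∉ S → aeval (w (Sum.inl i)) h = 0) :
    ConstClass (R ⊔ supp {x | x ∈ X ∧ aeval x.rep h = 0}) (fun i => c (sel S i))
      (fun i => ρ (sel S i)) := by
  classical
  have hext : ∀ (v : S ⊕ μ → Fin (r + 1) → k) (hv : ∀ i, v i ≠ 0),
      Spz k (fun i => ρ (sel S i)) v → ∃ P : κ ⊕ μ → ℙ k (Fin (r + 1) → k),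
        ∃ (w : κ ⊕ μ → Fin (r + 1) → k) (hw : ∀ i, w i ≠ 0), Spz k ρ w ∧
          (∀ i, P i = Projectivization.mk k (w i) (hw i)) ∧
          (∀ i, P (sel S i) = Projectivization.mk k (v i) (hv i)) ∧
          (∀ i ∈ L, P (Sum.inl i) = u i) ∧
          ∑ i ∈ (L ∪ S)ᶜ, Finsupp.single (P (Sum.inl i)) (c (Sum.inl i)) ∈
            supp {x : ℙ k (Fin (r + 1) → k) | x ∈ X ∧ aeval x.rep h = 0} := by
    intro v hv hvs
    obtain ⟨w, hw0, hws, hw2⟩ := extend_spz hρ0 (sel S) hv hvs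
    obtain ⟨hwL, hwC⟩ := hw w hw0 hws
    have hwX : ∀ i, Projectivization.mk k (w i) (hw0 i) ∈ X := hX.mem_of_spz hρspz hw0 hws
    refine ⟨fun i => Projectivization.mk k (w i) (hw0 i), w, hw0, hws, fun _ => rfl, fun i => ?_,
      hwL, sum_mem fun i hi => single_mem_supp ?_ _⟩
    · obtain ⟨a, ha⟩ := hw2 i
      exact mk_eq_of_smul _ _ ha
    · have hi' := Finset.mem_compl.1 hi
      rw [Finset.mem_union, not_or] at hi'
      exact ⟨hwX _, (aeval_rep_eq_zero hh (hw0 _)).2 (hwC i hi'.1 hi'.2)⟩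
  intro v v' hv hv' hvs hvs'
  obtain ⟨P, w, hw0, hws, hPw, hPv, hPL, hPC⟩ := hext v hv hvs
  obtain ⟨P', w', hw0', hws', hPw', hPv', hPL', hPC'⟩ := hext v' hv' hvs'
  have h5 := hconst w w' hw0 hw0' hws hws'
  have e1 : ∑ i, Finsupp.single (Projectivization.mk k (w i) (hw0 i)) (c i) =
      ∑ i, Finsupp.single (P i) (c i) := Finset.sum_congr rfl fun i _ => by rw [hPw]
  have e1' : ∑ i, Finsupp.single (Projectivization.mk k (w' i) (hw0' i)) (c i) =
      ∑ i, Finsupp.single (P' i) (c i) := Finset.sum_congr rfl fun i _ => by rw [hPw']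
  have e2 : ∑ i, Finsupp.single (Projectivization.mk k (v i) (hv i)) (c (sel S i)) =
      ∑ i, Finsupp.single (P (sel S i)) (c (sel S i)) :=
    Finset.sum_congr rfl fun i _ => by rw [hPv]
  have e2' : ∑ i, Finsupp.single (Projectivization.mk k (v' i) (hv' i)) (c (sel S i)) =
      ∑ i, Finsupp.single (P' (sel S i)) (c (sel S i)) :=
    Finset.sum_congr rfl fun i _ => by rw [hPv']
  have e3 : ∑ i ∈ L, Finsupp.single (P (Sum.inl i)) (c (Sum.inl i)) =
      ∑ i ∈ L, Finsupp.single (P' (Sum.inl i)) (c (Sum.inl i)) :=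
    Finset.sum_congr rfl fun i hi => by rw [hPL i hi, hPL' i hi]
  rw [e1, e1', sum_split hLS P c, sum_split hLS P' c, e3] at h5
  rw [e2, e2']
  refine AddSubgroup.mem_sup.2 ⟨_, h5, _, neg_mem (sub_mem hPC hPC'), ?_⟩
  abel

/-- **The main theorem for weights**, in terms of generic points: the class of a weighted sum of the
points of the first kind plus a weighted sum of the points of the second kind is constant. -/
theorem weights_core [IsAlgClosed k] (hn : 2 ≤ n) (hX : VarData k X K0 θ n) (he : 0 < e)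
    (hh : h.IsHomogeneous e) (hC : ∃ x ∈ X, aeval x.rep h ≠ 0)
    {R : AddSubgroup (ℙ k (Fin (r + 1) → k) →₀ ℤ)} {κ μ : Type} [Fintype κ] [DecidableEq κ]
    [Fintype μ] [DecidableEq μ] {K : Type} [Field K] [Algebra k K]
    {ξ : κ ⊕ μ → Fin (r + 1) → K} {b : κ ⊕ μ → Fin (r + 1)}
    (hb : ∀ i, ξ i (b i) ≠ 0) (hspz : ∀ i, Spz k θ (fun _ => ξ i)) {c : κ ⊕ μ → ℤ}
    (hm : (n - 1) * Fintype.card κ + Fintype.card μ <
      tt k (fun i => b (Sum.inl i)) (fun i => ξ (Sum.inl i)) Finset.univ)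
    (hconst : ConstClass R c ξ) :
    ∃ (i : κ) (M : ℕ), GenMul (R ⊔ supp {x | x ∈ X ∧ aeval x.rep h = 0}) X
      {x | x ∈ X ∧ aeval x.rep h = 0} (c (Sum.inl i)) M := by
  classical
  obtain ⟨L, S, u, K', _, _, ρ, b', hLS, hS, hρ, hξρ, hSn, hw⟩ :=
    exists_generic hn hX he hh hb hspz
  have hSm : Fintype.card μ < S.card := by omega
  have hρspz : ∀ i, Spz k θ (fun _ => ρ i) := fun i => (hspz i).trans (hξρ.single i)
  have hρ0 : ∀ i, ρ i ≠ 0 := fun i h0 => hρ i (congrFun h0 (b' i))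
  have hconst' : ConstClass R c ρ := fun v v' hv hv' h1 h2 =>
    hconst v v' hv hv' (hξρ.trans h1) (hξρ.trans h2)
  have hcs := constClass_sel (S := S) hρ0 hh hLS hX hρspz hconst' hw
  obtain ⟨I, hIdef⟩ : ∃ I : Finset (S ⊕ μ), I = Finset.univ.map ⟨Sum.inl, Sum.inl_injective⟩ :=
    ⟨_, rfl⟩
  have hIcard : I.card = S.card := by
    rw [hIdef, Finset.card_map, Finset.card_univ, Fintype.card_coe]
  have hIc : (Iᶜ).card = Fintype.card μ := by
    rw [Finset.card_compl, hIcard, Fintype.card_sum, Fintype.card_coe]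
    omega
  have hle : ∀ i : S ⊕ μ, tt k (fun i => b' (sel S i)) (fun i => ρ (sel S i)) {i} ≤ n := fun i =>
    (rank_point hX.gen hX.tr (ξ := fun i => ρ (sel S i)) (hρspz (sel S i)) (hρ (sel S i))).1
  have h1 : n * I.card ≤ tt k (fun i => b' (sel S i)) (fun i => ρ (sel S i)) I := by
    have h2 := tt_map (k := k) (b := fun i => b' (sel S i)) (ξ := fun i => ρ (sel S i))
      (⟨Sum.inl, Sum.inl_injective⟩ : S ↪ S ⊕ μ) Finset.univ
    have h3 := tt_map (k := k) (b := fun i => b' (Sum.inl i)) (ξ := fun i : κ => ρ (Sum.inl i))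
      (Function.Embedding.subtype fun x => x ∈ S) Finset.univ
    have h4 : (Finset.univ : Finset S).map (Function.Embedding.subtype fun x => x ∈ S) = S := by
      rw [← Finset.attach_eq_univ, Finset.attach_map_val]
    rw [h4] at h3
    rw [hIcard, hIdef, h2]
    exact hSn.trans h3.le
  have h2 : tt k (fun i => b' (sel S i)) (fun i => ρ (sel S i)) Iᶜ ≤ n * (Iᶜ).card :=
    poly_le (tt_submod (k := k) _ _) (tt_empty _ _) hle Iᶜ
  have h3 : tt k (fun i => b' (sel S i)) (fun i => ρ (sel S i)) I ≤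
      tt k (fun i => b' (sel S i)) (fun i => ρ (sel S i)) Finset.univ :=
    tt_mono (Finset.subset_univ _)
  have h4 : n * (Iᶜ).card < n * I.card := by
    rw [hIc, hIcard]
    exact Nat.mul_lt_mul_of_pos_left hSm (by omega)
  obtain ⟨x0, hx0, -⟩ := id hC
  obtain ⟨i0, hi0, hmove⟩ := move_core_of (ι := S ⊕ μ) hX he hh hC
    (ξ := fun i => ρ (sel S i)) (b := fun i => b' (sel S i)) (fun i => hρ _) (fun i => hρspz _)
    (I := I) h1 (h2.trans_lt (h4.trans_le (h1.trans h3))) hcs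
  have hi1 := hi0
  rw [hIdef] at hi1
  obtain ⟨i1, -, rfl⟩ := Finset.mem_map.1 hi1
  have hgen := genMul_of_move (c := fun i => c (sel S i)) hx0 hi0
    (H := {x | x ∈ X ∧ aeval x.rep h = 0}) fun a ha => by
      obtain ⟨v, hv1, hv2, hv3⟩ := hmove a ha
      exact ⟨v, hv1, ⟨hv1 _ hi0, hv2⟩, hv3⟩
  exact ⟨i1.1, _, hgen⟩

end Pool.Agent.K7.H3.ZR
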